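import Pool.Agent.Lib_MP_e76747_rs.RSDefs
import Mathlib

/-! # Arithmetic of the excess -/

namespace Pool.Agent.Lib_MP_e76747_rs

lemma excess_zero (m : ℕ) : excess 0 m = 0 := by
  unfold excess
  split_ifs <;> simp

lemma excess_of_zero {d m : ℕ} (h : m % d = 0) : excess d m = 0 := by
  unfold excess
  rw [if_pos h]

lemma excess_of_last {d m : ℕ} (h : m % d + 1 = d) : excess d m = d - 1 := by
  unfold excess
  by_cases h0 : m % d = 0
  · rw [if_pos h0]; omega
  · rw [if_neg h0, if_pos h]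

lemma excess_of_mid {d m : ℕ} (h0 : m % d ≠ 0) (h : m % d + 1 ≠ d) :
    excess d m = (m % d + 1) * (d - m % d) := by
  unfold excess
  rw [if_neg h0, if_neg h]

lemma excess_core (a b t k : ℕ) (ht2 : 2 ≤ t + 2) (hk : 1 ≤ k + 1) :
    (b + 1) * (t + 2) ≤ (k + 1) * ((b + (t + 2)) * (a + 1) + b)
      + excess (b + (t + 2) - (k + 1)) ((b + (t + 2)) * (a + 1) + b) := by
  rcases Nat.lt_or_ge ((a + 1 + 1) * (k + 1)) (t + 2) with hlt | hge
  · obtain ⟨u, hu⟩ : ∃ u, t + 2 = (a + 1 + 1) * (k + 1) + (u + 1) :=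
      ⟨t + 2 - (a + 1 + 1) * (k + 1) - 1, by omega⟩
    rw [hu]
    have hd' : b + ((a + 1 + 1) * (k + 1) + (u + 1)) - (k + 1)
        = b + (a + 1) * (k + 1) + (u + 1) := by
      have : (a + 1 + 1) * (k + 1) = (a + 1) * (k + 1) + (k + 1) := by ring
      omega
    rw [hd']
    have hQ' : (b + ((a + 1 + 1) * (k + 1) + (u + 1))) * (a + 1) + b
        = (b + (a + 1) * (k + 1) + (u + 1)) * (a + 1) + (b + (a + 1) * (k + 1)) := by ring
    rw [hQ']
    have hmod : ((b + (a + 1) * (k + 1) + (u + 1)) * (a + 1) + (b + (a + 1) * (k + 1)))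
        % (b + (a + 1) * (k + 1) + (u + 1)) = b + (a + 1) * (k + 1) := by
      rw [Nat.mul_add_mod]
      exact Nat.mod_eq_of_lt (by omega)
    have hpos : 0 < (a + 1) * (k + 1) := Nat.mul_pos (by omega) (by omega)
    rcases Nat.eq_zero_or_pos u with hu' | hu'
    · subst hu'
      rw [excess_of_last (by rw [hmod])]
      rw [zero_add, Nat.add_sub_cancel]
      nlinarith [Nat.zero_le (a * k), Nat.zero_le (a * a), Nat.zero_le (k * k),
        Nat.zero_le (a * a * k), Nat.zero_le (a * k * k), Nat.zero_le (a * a * k * k),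
        Nat.zero_le (b * a), Nat.zero_le (b * k), Nat.zero_le (b * a * k)]
    · obtain ⟨u, rfl⟩ : ∃ u', u = u' + 1 := ⟨u - 1, by omega⟩
      rw [excess_of_mid (by rw [hmod]; omega) (by rw [hmod]; omega)]
      rw [hmod, Nat.add_sub_cancel_left]
      have e : (k + 1) * ((b + (a + 1) * (k + 1) + (u + 1 + 1)) * (a + 1)
            + (b + (a + 1) * (k + 1)))
          + (b + (a + 1) * (k + 1) + 1) * (u + 1 + 1)
          = (b + 1) * ((a + 1 + 1) * (k + 1) + (u + 1 + 1))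
            + (k + 1) * ((a + 1) * (a + 1 + 1) * k + a * (a + 1 + 1) + (a + 1) * (2 * u + 3)
              + a + 1) := by
        ring
      rw [e]
      exact Nat.le_add_right _ _
  · refine le_trans ?_ (Nat.le_add_right _ _)
    have h2 : (b + 1) * (t + 2) ≤ (b + 1) * ((a + 1 + 1) * (k + 1)) := Nat.mul_le_mul_left _ hge
    refine h2.trans ?_
    have e3 : (k + 1) * ((b + (t + 2)) * (a + 1) + b)
        = (b + 1) * ((a + 1 + 1) * (k + 1)) + (k + 1) * (a * t + a + t) := by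
      ring
    rw [e3]
    exact Nat.le_add_right _ _

lemma excess_step {d k Q : ℕ} (hk : 1 ≤ k) (hkd : k ≤ d) (hd : d ≤ Q + 1) :
    excess d Q ≤ k * Q + excess (d - k) Q := by
  have hd0 : 1 ≤ d := by omega
  have hQ : Q ≤ k * Q := Nat.le_mul_of_pos_left Q hk
  by_cases h0 : Q % d = 0
  · rw [excess_of_zero h0]; exact Nat.zero_le _
  by_cases h1 : Q % d + 1 = d
  · rw [excess_of_last h1]; omega
  rw [excess_of_mid h0 h1]
  obtain ⟨b, hb⟩ : ∃ b, Q % d = b := ⟨_, rfl⟩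
  obtain ⟨a, ha⟩ : ∃ a, Q / d = a := ⟨_, rfl⟩
  have hab : d * (Q / d) + Q % d = Q := Nat.div_add_mod _ _
  have hbd : Q % d < d := Nat.mod_lt _ (by omega)
  rw [hb] at h0 h1 hab hbd ⊢
  rw [ha] at hab
  obtain ⟨t, rfl⟩ : ∃ t, d = b + (t + 2) := ⟨d - b - 2, by omega⟩
  have ha1 : a ≠ 0 := by
    rintro rfl
    rw [mul_zero, zero_add] at hab
    omega
  obtain ⟨a, rfl⟩ : ∃ a', a = a' + 1 := ⟨a - 1, by omega⟩
  obtain ⟨k, rfl⟩ : ∃ k', k = k' + 1 := ⟨k - 1, by omega⟩
  rw [← hab, Nat.add_sub_cancel_left]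
  exact excess_core a b t k (by omega) (by omega)

end Pool.Agent.Lib_MP_e76747_rs
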