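import Pool.Agent.Lib_MP_e76747_rs.Pencil2
import Pool.Agent.Lib_MP_e76747_rs.Excess

/-! # The bound for pencils in terms of the excess -/

namespace Pool.Agent.Lib_MP_e76747_rs

open Polynomial

variable {F L : Type*} [Field F] [Fintype F] [Field L] [Fintype L] [Algebra F L]

theorem pencil_excess {d : ℕ} (hd : 1 ≤ d) (hL : Fintype.card L = Fintype.card F ^ 2)
    {g0 g1 : L[X]} (hg0 : g0.natDegree ≤ d) (hg1 : g1.natDegree ≤ d)
    (hdeg : ∀ c0 c1 : F, ¬ (c0 = 0 ∧ c1 = 0) →
      algebraMap F L c0 * g0.coeff d + algebraMap F L c1 * g1.coeff d ≠ 0)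
    (hcop : IsCoprime g0 g1) (S : Finset L)
    (hS : ∀ s ∈ S, ∃ c0 c1 : F, ¬ (c0 = 0 ∧ c1 = 0) ∧
      algebraMap F L c0 * g0.eval s + algebraMap F L c1 * g1.eval s = 0) :
    S.card + excess d (Fintype.card F - 1) ≤ d * (Fintype.card F + 1) := by
  have h1 := pencil hd hL hg0 hg1 hdeg hcop S hS
  have hbd : (Fintype.card F - 1) % d < d := Nat.mod_lt _ (by omega)
  by_cases h0 : (Fintype.card F - 1) % d = 0
  · rw [excess_of_zero h0]; omega
  by_cases h2 : (Fintype.card F - 1) % d + 1 = d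
  · rw [excess_of_last h2]; omega
  rw [excess_of_mid h0 h2]
  exact pencil2 hL hg0 hg1 hdeg hcop S hS rfl (by omega) (by omega)

/-- The version without the coprimality assumption: common roots are counted twice. -/
theorem pencil_gcd2 {d : ℕ} (hd : 1 ≤ d) (hdq : d ≤ Fintype.card F) (hL : Fintype.card L = Fintype.card F ^ 2) {g0 g1 : L[X]}
    (hg0 : g0.natDegree ≤ d) (hg1 : g1.natDegree ≤ d)
    (hdeg : ∀ c0 c1 : F, ¬ (c0 = 0 ∧ c1 = 0) →
      algebraMap F L c0 * g0.coeff d + algebraMap F L c1 * g1.coeff d ≠ 0)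
    (S K0 : Finset L)
    (hS : ∀ s ∈ S, ¬ (g0.eval s = 0 ∧ g1.eval s = 0) ∧ ∃ c0 c1 : F, ¬ (c0 = 0 ∧ c1 = 0) ∧
      algebraMap F L c0 * g0.eval s + algebraMap F L c1 * g1.eval s = 0)
    (hK0 : ∀ s ∈ K0, g0.eval s = 0 ∧ g1.eval s = 0) :
    S.card + 2 * K0.card + excess d (Fintype.card F - 1) ≤ d * (Fintype.card F + 1) := by
  classical
  set q := Fintype.card F with hq
  have hq1 : 1 < q := Fintype.one_lt_card
  have ha0 : g0.coeff d ≠ 0 := by
    have := hdeg 1 0 (by simp)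
    simpa using this
  have hg0ne : g0 ≠ 0 := by
    rintro rfl
    exact ha0 (coeff_zero _)
  set K := EuclideanDomain.gcd g0 g1 with hK
  have hKne : K ≠ 0 := by
    intro h
    exact hg0ne (EuclideanDomain.gcd_eq_zero_iff.mp h).1
  obtain ⟨a0, ha0'⟩ : K ∣ g0 := EuclideanDomain.gcd_dvd_left _ _
  obtain ⟨a1, ha1'⟩ : K ∣ g1 := EuclideanDomain.gcd_dvd_right _ _
  have hbez := EuclideanDomain.gcd_eq_gcd_ab g0 g1
  rw [← hK] at hbez
  set s0 := EuclideanDomain.gcdA g0 g1
  set s1 := EuclideanDomain.gcdB g0 g1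
  have hcop : IsCoprime a0 a1 := by
    refine ⟨s0, s1, ?_⟩
    apply mul_left_cancel₀ hKne
    calc K * (s0 * a0 + s1 * a1) = (K * a0) * s0 + (K * a1) * s1 := by ring
      _ = K := by rw [← ha0', ← ha1', ← hbez]
      _ = K * 1 := (mul_one _).symm
  have ha0ne : a0 ≠ 0 := by
    rintro rfl
    rw [mul_zero] at ha0'
    exact hg0ne ha0'
  set κ := K.natDegree with hκ
  have hdg0 : g0.natDegree = d := le_antisymm hg0 (le_natDegree_of_ne_zero ha0)
  have hdg0' : κ + a0.natDegree = d := by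
    rw [hκ, ← natDegree_mul hKne ha0ne, ← ha0', hdg0]
  have hκd : κ ≤ d := by omega
  have hda0 : a0.natDegree ≤ d - κ := by omega
  have hda1 : a1.natDegree ≤ d - κ := by
    by_cases h : a1 = 0
    · rw [h, natDegree_zero]; omega
    · have : κ + a1.natDegree = g1.natDegree := by
        rw [hκ, ← natDegree_mul hKne h, ← ha1']
      omega
  have hcoef : ∀ a g : L[X], a.natDegree ≤ d - κ → g = K * a →
      g.coeff d = K.leadingCoeff * a.coeff (d - κ) := by
    intro a g ha hg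
    have : κ + (d - κ) = d := by omega
    rw [hg]
    conv_lhs => rw [← this]
    rw [coeff_mul_add_eq_of_natDegree_le (df := κ) (dg := d - κ) (by rw [hκ]) ha]
    rfl
  have hdeg' : ∀ c0 c1 : F, ¬ (c0 = 0 ∧ c1 = 0) →
      algebraMap F L c0 * a0.coeff (d - κ) + algebraMap F L c1 * a1.coeff (d - κ) ≠ 0 := by
    intro c0 c1 hc h0
    apply hdeg c0 c1 hc
    rw [hcoef a0 g0 hda0 ha0', hcoef a1 g1 hda1 ha1']
    linear_combination K.leadingCoeff * h0
  have hKs : ∀ s : L, K.eval s = 0 ↔ (g0.eval s = 0 ∧ g1.eval s = 0) := by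
    intro s
    constructor
    · intro h
      rw [ha0', ha1', eval_mul, eval_mul, h, zero_mul, zero_mul]
      exact ⟨rfl, rfl⟩
    · rintro ⟨h0, h1⟩
      rw [hbez, eval_add, eval_mul, eval_mul, h0, h1, zero_mul, zero_mul, add_zero]
  have hS' : ∀ s ∈ S, ∃ c0 c1 : F, ¬ (c0 = 0 ∧ c1 = 0) ∧
      algebraMap F L c0 * a0.eval s + algebraMap F L c1 * a1.eval s = 0 := by
    intro s hs
    obtain ⟨h1, c0, c1, hc, h2⟩ := hS s hs
    refine ⟨c0, c1, hc, ?_⟩
    have hKs0 : K.eval s ≠ 0 := fun h => h1 ((hKs s).mp h)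
    apply mul_left_cancel₀ hKs0
    rw [ha0', ha1', eval_mul, eval_mul] at h2
    linear_combination h2
  have hK0card : K0.card ≤ κ := by
    apply card_le_degree_of_subset_roots
    intro s hs
    rw [mem_roots hKne, IsRoot.def]
    exact (hKs s).mpr (hK0 s hs)
  rcases Nat.eq_zero_or_pos κ with hκ0 | hκ0
  · have h1 := pencil_excess (F := F) (d := d - κ) (by omega) hL hda0 hda1 hdeg' hcop S hS'
    rw [← hq, hκ0, Nat.sub_zero] at h1
    omega
  · have hScard : S.card + excess (d - κ) (q - 1) ≤ (d - κ) * (q + 1) := by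
      rcases Nat.eq_zero_or_pos (d - κ) with h0 | h0
      · have hSe : S = ∅ := by
          rw [Finset.eq_empty_iff_forall_notMem]
          intro s hs
          obtain ⟨c0, c1, hc, h2⟩ := hS' s hs
          apply hdeg' c0 c1 hc
          have e0 : a0.eval s = a0.coeff (d - κ) := by
            rw [h0] at hda0 ⊢
            rw [eq_C_of_natDegree_le_zero hda0]; simp
          have e1 : a1.eval s = a1.coeff (d - κ) := by
            rw [h0] at hda1 ⊢
            rw [eq_C_of_natDegree_le_zero hda1]; simp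
          rw [← e0, ← e1]
          exact h2
        rw [hSe, h0, excess_zero]; simp
      · exact pencil_excess (F := F) (d := d - κ) h0 hL hda0 hda1 hdeg' hcop S hS'
    have hstep := excess_step (d := d) (k := κ) (Q := q - 1) hκ0 hκd (by omega)
    obtain ⟨p, hp⟩ : ∃ p, q = p + 1 := ⟨q - 1, by omega⟩
    obtain ⟨m, hm⟩ : ∃ m, d = m + κ := ⟨d - κ, by omega⟩
    have h2 : d - κ = m := by omega
    rw [h2] at hScard hstep
    rw [hp, Nat.add_sub_cancel] at hScard hstep ⊢
    have h4 : d * (p + 1 + 1) = m * (p + 1 + 1) + κ * p + 2 * κ := by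
      rw [hm]; ring
    omega

end Pool.Agent.Lib_MP_e76747_rs
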