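import Pool.Agent.Lib_MP_e76747_rs.Dual
import Pool.Agent.Lib_MP_e76747_rs.Gcd2

/-! # Reed-Solomon codes with `ℓ = 2` that attain the bound -/

namespace Pool.Agent.Lib_MP_e76747_rs

open Matrix Pool.Agent.Lib_MP_e76747

variable {F L : Type*} [Field F] [Fintype F] [Field L] [Fintype L] [Algebra F L]

/-- the dehomogenised form, in a coordinate in which the node `(x0, z0)` is infinity -/
noncomputable def gpoly {d : ℕ} (b : Module.Basis (Fin 2) F L) (m : Fin (d + 1) × Fin 2 → F)
    (x0 z0 c e : L) : Polynomial L :=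
  ∑ k : Fin (d + 1), Polynomial.C (cf b m k) *
    ((Polynomial.C x0 * Polynomial.X + Polynomial.C c) ^ (k : ℕ) *
      (Polynomial.C z0 * Polynomial.X + Polynomial.C e) ^ (d - (k : ℕ)))

lemma gpoly_natDegree {d : ℕ} (b : Module.Basis (Fin 2) F L) (m : Fin (d + 1) × Fin 2 → F)
    (x0 z0 c e : L) : (gpoly b m x0 z0 c e).natDegree ≤ d := by
  unfold gpoly
  refine Polynomial.natDegree_sum_le_of_forall_le _ _ fun k _ => ?_
  refine (Polynomial.natDegree_C_mul_le _ _).trans (Polynomial.natDegree_mul_le.trans ?_)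
  have h1 : ((Polynomial.C x0 * Polynomial.X + Polynomial.C c) ^ (k : ℕ)).natDegree ≤ (k : ℕ) := by
    refine Polynomial.natDegree_pow_le.trans ?_
    have := Polynomial.natDegree_linear_le (a := x0) (b := c)
    calc (k : ℕ) * _ ≤ (k : ℕ) * 1 := Nat.mul_le_mul_left _ this
      _ = (k : ℕ) := mul_one _
  have h2 : ((Polynomial.C z0 * Polynomial.X + Polynomial.C e) ^ (d - (k : ℕ))).natDegree
      ≤ d - (k : ℕ) := by
    refine Polynomial.natDegree_pow_le.trans ?_
    have := Polynomial.natDegree_linear_le (a := z0) (b := e)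
    calc (d - (k : ℕ)) * _ ≤ (d - (k : ℕ)) * 1 := Nat.mul_le_mul_left _ this
      _ = d - (k : ℕ) := mul_one _
  have h3 : (k : ℕ) < d + 1 := k.2
  omega

lemma G_smul {d : ℕ} (b : Module.Basis (Fin 2) F L) (m : Fin (d + 1) × Fin 2 → F)
    (x0 z0 c e u lam : L) :
    G b m (lam * (x0 * u + c)) (lam * (z0 * u + e))
      = lam ^ d * (gpoly b m x0 z0 c e).eval u := by
  unfold G gpoly
  rw [Polynomial.eval_finset_sum, Finset.mul_sum]
  refine Finset.sum_congr rfl fun k _ => ?_
  simp only [Polynomial.eval_mul, Polynomial.eval_C, Polynomial.eval_pow, Polynomial.eval_add,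
    Polynomial.eval_X]
  have h3 : (k : ℕ) < d + 1 := k.2
  have h4 : d + 1 - 1 - (k : ℕ) = d - k := by omega
  rw [h4, mul_pow, mul_pow]
  have h5 : lam ^ d = lam ^ (k : ℕ) * lam ^ (d - (k : ℕ)) := by
    rw [← pow_add]; congr 1; omega
  rw [h5]
  ring

lemma gpoly_comb {d : ℕ} (b : Module.Basis (Fin 2) F L) (m0 m1 : Fin (d + 1) × Fin 2 → F)
    (c0 c1 : F) (x0 z0 c e u : L) :
    (gpoly b (c0 • m0 + c1 • m1) x0 z0 c e).eval u
      = algebraMap F L c0 * (gpoly b m0 x0 z0 c e).eval u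
        + algebraMap F L c1 * (gpoly b m1 x0 z0 c e).eval u := by
  have h := G_comb b m0 m1 c0 c1 (1 * (x0 * u + c)) (1 * (z0 * u + e))
  rw [G_smul, G_smul, G_smul, one_pow, one_mul, one_mul, one_mul] at h
  exact h

lemma gpoly_coeff {d : ℕ} (b : Module.Basis (Fin 2) F L) (m : Fin (d + 1) × Fin 2 → F)
    (x0 z0 c e : L) : (gpoly b m x0 z0 c e).coeff d = G b m x0 z0 := by
  unfold gpoly G
  rw [Polynomial.finset_sum_coeff]
  refine Finset.sum_congr rfl fun k _ => ?_
  rw [Polynomial.coeff_C_mul]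
  congr 1
  have h3 : (k : ℕ) < d + 1 := k.2
  have h4 : d + 1 - 1 - (k : ℕ) = d - k := by omega
  have h5 : (k : ℕ) + (d - (k : ℕ)) = d := by omega
  have h1 : ((Polynomial.C x0 * Polynomial.X + Polynomial.C c) ^ (k : ℕ)).natDegree ≤ (k : ℕ) := by
    refine Polynomial.natDegree_pow_le.trans ?_
    have := Polynomial.natDegree_linear_le (a := x0) (b := c)
    calc (k : ℕ) * _ ≤ (k : ℕ) * 1 := Nat.mul_le_mul_left _ this
      _ = (k : ℕ) := mul_one _
  have h2 : ((Polynomial.C z0 * Polynomial.X + Polynomial.C e) ^ (d - (k : ℕ))).natDegree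
      ≤ d - (k : ℕ) := by
    refine Polynomial.natDegree_pow_le.trans ?_
    have := Polynomial.natDegree_linear_le (a := z0) (b := e)
    calc (d - (k : ℕ)) * _ ≤ (d - (k : ℕ)) * 1 := Nat.mul_le_mul_left _ this
      _ = d - (k : ℕ) := mul_one _
  have h6 := Polynomial.coeff_mul_add_eq_of_natDegree_le h1 h2
  rw [h5] at h6
  rw [h6, h4]
  have h7 := Polynomial.coeff_pow_of_natDegree_le (m := (k : ℕ)) (n := 1)
    (Polynomial.natDegree_linear_le (a := x0) (b := c))
  have h8 := Polynomial.coeff_pow_of_natDegree_le (m := d - (k : ℕ)) (n := 1)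
    (Polynomial.natDegree_linear_le (a := z0) (b := e))
  rw [mul_one] at h7 h8
  rw [h7, h8]
  simp

/-- A bound for pencils gives a bound for Reed-Solomon codes with `ℓ = 2`. -/
theorem rs_core_gen {d n ex : ℕ} (hpen : ∀ (g0 g1 : Polynomial L), g0.natDegree ≤ d →
      g1.natDegree ≤ d → (∀ c0 c1 : F, ¬ (c0 = 0 ∧ c1 = 0) →
      algebraMap F L c0 * g0.coeff d + algebraMap F L c1 * g1.coeff d ≠ 0) →
      ∀ S K0 : Finset L, (∀ s ∈ S, ¬ (g0.eval s = 0 ∧ g1.eval s = 0) ∧
        ∃ c0 c1 : F, ¬ (c0 = 0 ∧ c1 = 0) ∧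
        algebraMap F L c0 * g0.eval s + algebraMap F L c1 * g1.eval s = 0) →
      (∀ s ∈ K0, g0.eval s = 0 ∧ g1.eval s = 0) →
      S.card + 2 * K0.card + ex ≤ d * (Fintype.card F + 1)) (b : Module.Basis (Fin 2) F L) (x z : Fin n → L)
    (hP : ∀ i j, i ≠ j → x i * z j ≠ x j * z i)
    (T : Fin n → Matrix (Fin 2) (Fin 2) F) (hT : ∀ j, IsUnit (T j))
    (H : Fin n → Matrix (Fin (d + 1) × Fin 2) (Fin 2) F)
    (hH : ∀ j, H j = rsBlock b (d + 1) (x j) (z j) * T j) (i : Fin n)
    (hi : ¬ (x i = 0 ∧ z i = 0))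
    (M : Matrix (Fin 2) (Fin (d + 1) × Fin 2) F) (hM : IsRepair H i M) :
    2 * (n - 1) + ex ≤ BW H i M + d * (Fintype.card F + 1) := by
  classical
  set q := Fintype.card F with hq
  have hq1 : 1 < q := Fintype.one_lt_card
  have hL : Fintype.card L = q ^ 2 := by
    have := Module.card_eq_pow_finrank (K := F) (V := L)
    rw [this, Module.finrank_eq_card_basis b, Fintype.card_fin]
  -- coranks
  set co : Fin n → ℕ := fun j => 2 - (M * H j).rank with hco
  have hrank : ∀ j, (M * H j).rank ≤ 2 := by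
    intro j
    simpa using Matrix.rank_le_width (M * H j)
  have hcosum : ∑ j ∈ Finset.univ.erase i, co j + BW H i M = 2 * (n - 1) := by
    unfold BW
    rw [← Finset.sum_add_distrib, Finset.sum_congr rfl (fun j _ => Nat.sub_add_cancel (hrank j))]
    rw [Finset.sum_const, Finset.card_erase_of_mem (Finset.mem_univ _), Finset.card_univ]
    simp [mul_comm]
  have e1 : ∀ j, (Finset.univ.filter fun v : Fin 2 → F => v ᵥ* (M * H j) = 0).card
      = q ^ co j := by
    intro j
    rw [hco, hq, ← card_vecMul_eq_zero]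
  have hcard2 : Fintype.card (Fin 2 → F) = q ^ 2 := by
    rw [Fintype.card_fun, Fintype.card_fin]
  have hnoti : ∀ v : Fin 2 → F, v ≠ 0 → ¬ (v ᵥ* (M * H i) = 0) := by
    intro v hv h0
    have hinj := Matrix.vecMul_injective_of_isUnit hM
    apply hv
    apply hinj
    simpa using h0
  -- a coordinate in which node i is infinity
  obtain ⟨c, e, hδ⟩ : ∃ c e : L, x i * e - z i * c ≠ 0 := by
    by_cases hz : z i = 0
    · have hx : x i ≠ 0 := fun h => hi ⟨h, hz⟩
      exact ⟨0, 1, by simpa using hx⟩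
    · exact ⟨1, 0, by simpa using hz⟩
  set δ := x i * e - z i * c with hδdef
  have hw : ∀ j, j ≠ i → x i * z j - x j * z i ≠ 0 := fun j hj =>
    sub_ne_zero.mpr (hP i j (Ne.symm hj))
  let u : Fin n → L := fun j => (x j * e - z j * c) / (x i * z j - x j * z i)
  let lam : Fin n → L := fun j => (x i * z j - x j * z i) / δ
  have hxj : ∀ j, j ≠ i → lam j * (x i * u j + c) = x j := by
    intro j hj
    have h1 := hw j hj
    simp only [lam, u]
    field_simp
    rw [hδdef]
    ring
  have hzj : ∀ j, j ≠ i → lam j * (z i * u j + e) = z j := by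
    intro j hj
    have h1 := hw j hj
    simp only [lam, u]
    field_simp
    rw [hδdef]
    ring
  have hlam : ∀ j, j ≠ i → lam j ≠ 0 := fun j hj => div_ne_zero (hw j hj) hδ
  have huinj : ∀ j k, j ≠ i → k ≠ i → u j = u k → j = k := by
    intro j k hj hk hjk
    by_contra hne
    apply hP j k hne
    rw [← hxj j hj, ← hzj j hj, ← hxj k hk, ← hzj k hk, hjk]
    ring
  -- the pencil
  let mrow : (Fin 2 → F) → (Fin (d + 1) × Fin 2 → F) := fun v => v ᵥ* M
  let g : (Fin 2 → F) → Polynomial L := fun v => gpoly b (mrow v) (x i) (z i) c e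
  have hT0 : ∀ v : Fin 2 → F, ∀ j, (v ᵥ* (M * H j) = 0 ↔ G b (mrow v) (x j) (z j) = 0) := by
    intro v j
    have e0 : v ᵥ* (M * H j) = (mrow v ᵥ* rsBlock b (d + 1) (x j) (z j)) ᵥ* T j := by
      simp only [mrow]
      rw [Matrix.vecMul_vecMul, Matrix.vecMul_vecMul, hH]
    rw [e0, ← vecMul_rsBlock_eq_zero_iff]
    constructor
    · intro h
      have hinj := Matrix.vecMul_injective_of_isUnit (hT j)
      apply hinj
      simpa using h
    · intro h
      rw [h, Matrix.zero_vecMul]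
  have hzero : ∀ v : Fin 2 → F, ∀ j, j ≠ i → (v ᵥ* (M * H j) = 0 ↔ (g v).eval (u j) = 0) := by
    intro v j hj
    rw [hT0]
    have h2 : G b (mrow v) (x j) (z j) = lam j ^ d * (g v).eval (u j) := by
      have := G_smul b (mrow v) (x i) (z i) c e (u j) (lam j)
      rw [hxj j hj, hzj j hj] at this
      exact this
    rw [h2, mul_eq_zero]
    constructor
    · rintro (h | h)
      · exact absurd h (pow_ne_zero _ (hlam j hj))
      · exact h
    · exact fun h => Or.inr h
  have hrowcomb : ∀ c0 c1 : F, mrow ![c0, c1] = c0 • mrow ![1, 0] + c1 • mrow ![0, 1] := by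
    intro c0 c1
    simp only [mrow]
    rw [← Matrix.smul_vecMul, ← Matrix.smul_vecMul, ← Matrix.add_vecMul]
    congr 1
    ext t
    fin_cases t <;> simp
  have hcomb : ∀ c0 c1 : F, ∀ s : L, (g ![c0, c1]).eval s
      = algebraMap F L c0 * (g ![1, 0]).eval s + algebraMap F L c1 * (g ![0, 1]).eval s := by
    intro c0 c1 s
    simp only [g]
    rw [hrowcomb]
    exact gpoly_comb b _ _ c0 c1 _ _ _ _ s
  have hvne : ∀ c0 c1 : F, ¬ (c0 = 0 ∧ c1 = 0) → (![c0, c1] : Fin 2 → F) ≠ 0 := by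
    intro c0 c1 hc h
    apply hc
    have h0 := congrFun h 0
    have h1 := congrFun h 1
    simp at h0 h1
    exact ⟨h0, h1⟩
  have hv01 : ∀ v : Fin 2 → F, v = ![v 0, v 1] := by
    intro v
    ext t
    fin_cases t <;> simp
  have hdeg : ∀ c0 c1 : F, ¬ (c0 = 0 ∧ c1 = 0) →
      algebraMap F L c0 * (g ![1, 0]).coeff d + algebraMap F L c1 * (g ![0, 1]).coeff d ≠ 0 := by
    intro c0 c1 hc h0
    apply hnoti _ (hvne c0 c1 hc)
    rw [hT0, hrowcomb, G_comb]
    simp only [g, gpoly_coeff] at h0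
    exact h0
  -- nodes of corank 1 and 2
  set A1 := (Finset.univ.erase i).filter fun j => co j = 1 with hA1
  set A2 := (Finset.univ.erase i).filter fun j => co j = 2 with hA2
  have hsum : ∑ j ∈ Finset.univ.erase i, co j = A1.card + 2 * A2.card := by
    have h1 : ∀ j, co j = (if co j = 1 then 1 else 0) + 2 * (if co j = 2 then 1 else 0) := by
      intro j
      have : co j ≤ 2 := Nat.sub_le _ _
      by_cases h1 : co j = 1
      · simp [h1]
      · by_cases h2 : co j = 2
        · simp [h2]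
        · have : co j = 0 := by omega
          simp [this]
    rw [Finset.sum_congr rfl (fun j _ => h1 j), Finset.sum_add_distrib, ← Finset.mul_sum,
      hA1, hA2, Finset.card_filter, Finset.card_filter]
  have hcardA1 : (A1.image u).card = A1.card := by
    apply Finset.card_image_of_injOn
    intro j hj k hk hjk
    have hj' := (Finset.mem_filter.mp (Finset.mem_coe.mp hj)).1
    have hk' := (Finset.mem_filter.mp (Finset.mem_coe.mp hk)).1
    exact huinj j k (Finset.ne_of_mem_erase hj') (Finset.ne_of_mem_erase hk') hjk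
  have hcardA2 : (A2.image u).card = A2.card := by
    apply Finset.card_image_of_injOn
    intro j hj k hk hjk
    have hj' := (Finset.mem_filter.mp (Finset.mem_coe.mp hj)).1
    have hk' := (Finset.mem_filter.mp (Finset.mem_coe.mp hk)).1
    exact huinj j k (Finset.ne_of_mem_erase hj') (Finset.ne_of_mem_erase hk') hjk
  have hfin := hpen (g ![1, 0]) (g ![0, 1]) (gpoly_natDegree b _ _ _ _ _)
    (gpoly_natDegree b _ _ _ _ _) hdeg (A1.image u) (A2.image u) ?_ ?_
  · rw [hcardA1, hcardA2] at hfin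
    rw [hsum] at hcosum
    omega
  · intro s hs
    obtain ⟨j, hj, rfl⟩ := Finset.mem_image.mp hs
    obtain ⟨hj1, hj2⟩ := Finset.mem_filter.mp hj
    have hji := Finset.ne_of_mem_erase hj1
    have hc := e1 j
    rw [hj2, pow_one] at hc
    constructor
    · rintro ⟨h0, h1⟩
      have hall : (Finset.univ.filter fun v : Fin 2 → F => v ᵥ* (M * H j) = 0) = Finset.univ := by
        rw [Finset.filter_true_of_mem]
        intro v _
        rw [hzero v j hji, hv01 v, hcomb, h0, h1, mul_zero, mul_zero, add_zero]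
      rw [hall, Finset.card_univ, hcard2] at hc
      have : q * 1 < q * q := Nat.mul_lt_mul_of_pos_left hq1 (by omega)
      rw [sq] at hc
      omega
    · have h2 : 1 < (Finset.univ.filter fun v : Fin 2 → F => v ᵥ* (M * H j) = 0).card := by
        rw [hc]; exact hq1
      obtain ⟨v, hv, hv0⟩ := Finset.exists_mem_ne h2 0
      rw [Finset.mem_filter] at hv
      refine ⟨v 0, v 1, ?_, ?_⟩
      · rintro ⟨h0, h1⟩
        apply hv0
        rw [hv01 v, h0, h1]
        ext t
        fin_cases t <;> simp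
      · rw [← hcomb, ← hv01]
        exact (hzero v j hji).mp hv.2
  · intro s hs
    obtain ⟨j, hj, rfl⟩ := Finset.mem_image.mp hs
    obtain ⟨hj1, hj2⟩ := Finset.mem_filter.mp hj
    have hji := Finset.ne_of_mem_erase hj1
    have hc := e1 j
    rw [hj2, ← hcard2, ← Finset.card_univ] at hc
    have hall := Finset.filter_card_eq hc
    have hk : ∀ v : Fin 2 → F, v ᵥ* (M * H j) = 0 := fun v => hall v (Finset.mem_univ v)
    exact ⟨(hzero _ j hji).mp (hk _), (hzero _ j hji).mp (hk _)⟩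

/-- The lower bound for Reed-Solomon codes with `ℓ = 2`. -/
theorem rs_core {d n : ℕ} (hd : 1 ≤ d) (b : Module.Basis (Fin 2) F L) (x z : Fin n → L)
    (hP : ∀ i j, i ≠ j → x i * z j ≠ x j * z i)
    (T : Fin n → Matrix (Fin 2) (Fin 2) F) (hT : ∀ j, IsUnit (T j))
    (H : Fin n → Matrix (Fin (d + 1) × Fin 2) (Fin 2) F)
    (hH : ∀ j, H j = rsBlock b (d + 1) (x j) (z j) * T j) (i : Fin n)
    (hi : ¬ (x i = 0 ∧ z i = 0))
    (M : Matrix (Fin 2) (Fin (d + 1) × Fin 2) F) (hM : IsRepair H i M) :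
    2 * (n - 1) + (Fintype.card F - 1) % d ≤ BW H i M + d * (Fintype.card F + 1) := by
  have hL : Fintype.card L = Fintype.card F ^ 2 := by
    have := Module.card_eq_pow_finrank (K := F) (V := L)
    rw [this, Module.finrank_eq_card_basis b, Fintype.card_fin]
  exact rs_core_gen (fun g0 g1 h0 h1 hdeg S K0 hS hK0 => pencil_gcd hd hL h0 h1 hdeg S K0 hS hK0)
    b x z hP T hT H hH i hi M hM

/-- The larger lower bound for Reed-Solomon codes with `ℓ = 2`, `r ≤ q + 1`. -/
theorem rs_core2 {d n : ℕ} (hd : 1 ≤ d) (hdq : d ≤ Fintype.card F)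
    (b : Module.Basis (Fin 2) F L) (x z : Fin n → L)
    (hP : ∀ i j, i ≠ j → x i * z j ≠ x j * z i)
    (T : Fin n → Matrix (Fin 2) (Fin 2) F) (hT : ∀ j, IsUnit (T j))
    (H : Fin n → Matrix (Fin (d + 1) × Fin 2) (Fin 2) F)
    (hH : ∀ j, H j = rsBlock b (d + 1) (x j) (z j) * T j) (i : Fin n)
    (hi : ¬ (x i = 0 ∧ z i = 0))
    (M : Matrix (Fin 2) (Fin (d + 1) × Fin 2) F) (hM : IsRepair H i M) :
    2 * (n - 1) + excess d (Fintype.card F - 1) ≤ BW H i M + d * (Fintype.card F + 1) := by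
  have hL : Fintype.card L = Fintype.card F ^ 2 := by
    have := Module.card_eq_pow_finrank (K := F) (V := L)
    rw [this, Module.finrank_eq_card_basis b, Fintype.card_fin]
  exact rs_core_gen
    (fun g0 g1 h0 h1 hdeg S K0 hS hK0 => pencil_gcd2 hd hdq hL h0 h1 hdeg S K0 hS hK0)
    b x z hP T hT H hH i hi M hM

end Pool.Agent.Lib_MP_e76747_rs
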