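import Pool.Agent.Lib_MP_e76747_rs.Ord

/-! # The torsion argument on the curve `g0(x) k1(y) = g1(x) k0(y)` -/

namespace Pool.Agent.Lib_MP_e76747_rs

open Polynomial Polynomial.Bivariate

variable {L : Type*} [Field L]

lemma coeff_coeff_swap (F : L[X][Y]) (i j : ℕ) :
    ((Bivariate.swap F).coeff i).coeff j = (F.coeff j).coeff i := by
  induction F using Polynomial.induction_on' with
  | add p q hp hq => simp only [map_add, coeff_add, hp, hq]
  | monomial n a =>
    rw [Bivariate.swap_monomial, mul_comm, coeff_C_mul, coeff_map, mul_comm, coeff_C_mul,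
      coeff_X_pow, coeff_monomial]
    by_cases h : j = n
    · subst h; simp
    · rw [if_neg h, if_neg (fun h' => h h'.symm)]; simp

/-- the equation of the curve -/
noncomputable def hh (g0 g1 k0 k1 : L[X]) : L[X][Y] :=
  C g0 * k1.map C - C g1 * k0.map C

lemma swap_hh (g0 g1 k0 k1 : L[X]) :
    Bivariate.swap (hh g0 g1 k0 k1) = g0.map C * C k1 - g1.map C * C k0 := by
  unfold hh
  rw [map_sub, map_mul, map_mul, Bivariate.swap_C, Bivariate.swap_C, Bivariate.swap_map_C,
    Bivariate.swap_map_C]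

theorem curve {d q : ℕ} (hd : 1 ≤ d) (hq : 2 ≤ q) {g0 g1 k0 k1 : L[X]}
    (hg0 : g0.natDegree ≤ d) (hg1 : g1.natDegree ≤ d)
    (hk0 : k0.natDegree ≤ d) (hk1 : k1.natDegree ≤ d)
    (hcg : IsCoprime g0 g1) (hck : IsCoprime k0 k1)
    (hlead : g0.coeff d * k1.coeff d - g1.coeff d * k0.coeff d ≠ 0)
    (hb0 : k0.coeff d ≠ 0) {N : L[X]} (hN : N ≠ 0)
    (v : L[X][Y]) (hv : hh g0 g1 k0 k1 ∣ (X - C (X ^ q)) * v - (X ^ q - C X) * C N) :
    (q - 1) % d ≤ N.natDegree := by
  set h := hh g0 g1 k0 k1 with hh_def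
  -- outer variable y
  have hcoefd : h.coeff d = g0 * C (k1.coeff d) - g1 * C (k0.coeff d) := by
    rw [hh_def, hh, coeff_sub, coeff_C_mul, coeff_C_mul, coeff_map, coeff_map]
  have hcoefd0 : h.coeff d ≠ 0 := by
    intro h0
    apply hlead
    have := congrArg (fun P => coeff P d) (hcoefd.symm.trans h0)
    simpa using this
  have hdeg : h.natDegree = d := by
    apply le_antisymm
    · rw [hh_def, hh]
      refine (natDegree_sub_le _ _).trans (max_le ?_ ?_)
      · refine (natDegree_C_mul_le _ _).trans (natDegree_map_le.trans hk1)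
      · refine (natDegree_C_mul_le _ _).trans (natDegree_map_le.trans hk0)
    · exact le_natDegree_of_ne_zero hcoefd0
  have hne : h ≠ 0 := by
    intro h0
    rw [h0, coeff_zero] at hcoefd0
    exact hcoefd0 rfl
  -- the swapped polynomial
  set h' := Bivariate.swap h with h'_def
  have hs : h' = g0.map C * C k1 - g1.map C * C k0 := by
    rw [h'_def, hh_def, swap_hh]
  have hcoefd' : h'.coeff d = C (g0.coeff d) * k1 - C (g1.coeff d) * k0 := by
    rw [hs, coeff_sub, coeff_mul_C, coeff_mul_C, coeff_map, coeff_map]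
  have hcc : (h'.coeff d).coeff d ≠ 0 := by
    rw [hcoefd', coeff_sub, coeff_C_mul, coeff_C_mul]
    exact hlead
  have hcoefd0' : h'.coeff d ≠ 0 := by
    intro h0
    rw [h0, coeff_zero] at hcc
    exact hcc rfl
  have hdeg' : h'.natDegree = d := by
    apply le_antisymm
    · rw [hs]
      refine (natDegree_sub_le _ _).trans (max_le ?_ ?_)
      · refine (natDegree_mul_C_le _ _).trans (natDegree_map_le.trans hg0)
      · refine (natDegree_mul_C_le _ _).trans (natDegree_map_le.trans hg1)
    · exact le_natDegree_of_ne_zero hcoefd0'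
  have hne' : h' ≠ 0 := by
    intro h0
    rw [h0, coeff_zero] at hcoefd0'
    exact hcoefd0' rfl
  -- division with remainder
  set a := (q - 1) / d with ha
  set b := (q - 1) % d with hb
  have hab : d * a + b = q - 1 := Nat.div_add_mod _ _
  have hbd : b < d := Nat.mod_lt _ (by omega)
  by_contra hnd
  have hb1 : N.natDegree + 1 ≤ b := by omega
  -- rho
  obtain ⟨β, α, hαβ⟩ := hck
  set ρ : L[X][Y] := α.map C * C g1 + β.map C * C g0 with hρ
  have hαβ' : β.map C * k0.map C + α.map C * k1.map C = (1 : L[X][Y]) := by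
    rw [← Polynomial.map_mul, ← Polynomial.map_mul, ← Polynomial.map_add, hαβ, Polynomial.map_one]
  have hr0 : k0.map C * ρ - C g0 = -(α.map C) * h := by
    rw [hρ, hh_def, hh]
    linear_combination (C g0) * hαβ'
  have hr1 : k1.map C * ρ - C g1 = (β.map C) * h := by
    rw [hρ, hh_def, hh]
    linear_combination (C g1) * hαβ'
  -- orders at y = infinity
  have hu1 : (X - C (X ^ q) : L[X][Y]).natDegree ≤ 1 := by
    rw [natDegree_X_sub_C]
  have hu2 : IsUnit ((X - C (X ^ q) : L[X][Y]).coeff 1) := by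
    rw [coeff_sub, coeff_X_one, coeff_C, if_neg one_ne_zero, sub_zero]
    exact isUnit_one
  have hG1 : ((X ^ q - C X) * C N : L[X][Y]).natDegree ≤ q := by
    refine (natDegree_mul_C_le _ _).trans ((natDegree_sub_le _ _).trans (max_le ?_ ?_))
    · exact natDegree_X_pow_le q
    · simp
  set nv := max v.natDegree q with hnv
  have ov : Ord h d v nv (1 + nv - q) :=
    Ord.solve hdeg hu1 hu2 (le_max_left _ _) hG1 (by omega) hv
  have oρ : Ord h d ρ ρ.natDegree (d + ρ.natDegree - 0) := by
    refine Ord.solve (u := k0.map C) (G := C g0) hdeg (natDegree_map_le.trans hk0) ?_ le_rfl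
      (by simp) (by omega) ?_
    · rw [coeff_map]
      exact (IsUnit.mk0 _ hb0).map C
    · rw [hr0]; exact dvd_mul_left _ _
  have of := ov.mul (oρ.pow a)
  obtain ⟨E, hE1, hE2⟩ := of.reduce hdeg hne (by omega) (by
    have hqn : q ≤ nv := le_max_right _ _
    have e1 : a * (d + ρ.natDegree - 0) = d * a + a * ρ.natDegree := by
      rw [Nat.sub_zero]; ring
    rw [e1]
    omega)
  -- orders at x = infinity
  set v' := Bivariate.swap v with hv'
  set ρ' := Bivariate.swap ρ with hρ'
  set E' := Bivariate.swap E with hE'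
  have hρ'' : ρ' = C α * g1.map C + C β * g0.map C := by
    rw [hρ', hρ, map_add, map_mul, map_mul, Bivariate.swap_C, Bivariate.swap_C,
      Bivariate.swap_map_C, Bivariate.swap_map_C]
  have hρdeg : ρ'.natDegree ≤ d := by
    rw [hρ'']
    refine (natDegree_add_le _ _).trans (max_le ?_ ?_)
    · exact (natDegree_C_mul_le _ _).trans (natDegree_map_le.trans hg1)
    · exact (natDegree_C_mul_le _ _).trans (natDegree_map_le.trans hg0)
  have hswapu : Bivariate.swap (X - C (X ^ q) : L[X][Y]) = C X - X ^ q := by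
    rw [map_sub, Bivariate.swap_Y, Bivariate.swap_C, Polynomial.map_pow, map_X]
  have hswapG : Bivariate.swap (X ^ q - C X : L[X][Y]) = C (X ^ q) - X := by
    rw [map_sub, map_pow, Bivariate.swap_Y, Bivariate.swap_C, map_X, C_pow]
  have hdvd' : h' ∣ (C X - X ^ q) * v' - (C (X ^ q) - X) * N.map C := by
    have := map_dvd (Bivariate.swap (R := L)) hv
    rwa [map_sub, map_mul, map_mul, hswapu, hswapG, Bivariate.swap_C] at this
  have hGN : ((C (X ^ q) - X) * N.map C : L[X][Y]).natDegree ≤ 1 + N.natDegree := by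
    refine natDegree_mul_le.trans (Nat.add_le_add ?_ natDegree_map_le)
    refine (natDegree_sub_le _ _).trans (max_le ?_ ?_)
    · simp
    · exact natDegree_X_le
  set nv' := max v'.natDegree N.natDegree with hnv'
  have hnv1 : N.natDegree ≤ nv' := le_max_right _ _
  have ov' : Ord h' d v' nv' (q + nv' - (1 + N.natDegree)) := by
    refine Ord.solve hdeg' ?_ ?_ (le_max_left _ _) hGN (by omega) hdvd'
    · refine (natDegree_sub_le _ _).trans (max_le ?_ ?_)
      · simp
      · exact natDegree_X_pow_le q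
    · rw [coeff_sub, coeff_C, if_neg (by omega), coeff_X_pow, if_pos rfl, zero_sub]
      exact isUnit_one.neg
  have oρ' : Ord h' d ρ' d 0 := Ord.triv hρdeg
  have of' := ov'.mul (oρ'.pow a)
  have hE2' : h' ∣ v' * ρ' ^ a - E' := by
    have := map_dvd (Bivariate.swap (R := L)) hE2
    rwa [map_sub, map_mul, map_pow] at this
  have hcore := of'.core hdeg' hne' hE2' (N := E'.natDegree) le_rfl (by
    have e1 : a * d = d * a := mul_comm _ _
    have e2 : a * 0 = 0 := mul_zero _
    rw [e1, e2]
    omega)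
  have hE0 : E' = 0 := by
    by_contra hE0
    have h1 : E'.coeff E'.natDegree ≠ 0 := leadingCoeff_ne_zero.mpr hE0
    have h2 := natDegree_le_of_dvd hcore h1
    have h3 : d ≤ (h'.coeff d).natDegree := le_natDegree_of_ne_zero hcc
    have h4 : (E'.coeff E'.natDegree).natDegree < d := by
      refine lt_of_le_of_lt ?_ hE1
      rw [natDegree_le_iff_coeff_eq_zero]
      intro j hj
      rw [hE', coeff_coeff_swap, coeff_eq_zero_of_natDegree_lt hj, coeff_zero]
    omega
  have hE00 : E = 0 := by
    have := congrArg (Bivariate.swap (R := L)) hE0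
    rwa [hE', Bivariate.swap_swap_apply, map_zero] at this
  rw [hE00, sub_zero] at hE2
  -- h does not divide v * ρ ^ a
  have hstep : ∀ (g k : L[X]), h ∣ k.map C * ρ - C g →
      h ∣ ((X ^ q - C X) * C N) * C g ^ a := by
    intro g k hgk
    have h1 : h ∣ (k.map C * ρ) ^ a - C g ^ a := hgk.trans (sub_dvd_pow_sub_pow _ _ a)
    have h2 : ((X ^ q - C X) * C N) * C g ^ a
        = (X - C (X ^ q)) * (v * ρ ^ a) * (k.map C) ^ a
          - (X - C (X ^ q)) * v * ((k.map C * ρ) ^ a - C g ^ a)
          - ((X - C (X ^ q)) * v - (X ^ q - C X) * C N) * C g ^ a := by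
      rw [mul_pow]; ring
    rw [h2]
    refine dvd_sub (dvd_sub ?_ ?_) ?_
    · exact (hE2.mul_left _).mul_right _
    · exact h1.mul_left _
    · exact hv.mul_right _
  have hs0 := hstep g0 k0 (by rw [hr0]; exact dvd_mul_left _ _)
  have hs1 := hstep g1 k1 (by rw [hr1]; exact dvd_mul_left _ _)
  obtain ⟨s, t, hst⟩ := (hcg.pow (m := a) (n := a))
  have hG : h ∣ ((X ^ q - C X) * C N : L[X][Y]) := by
    have h1 : ((X ^ q - C X) * C N : L[X][Y])
        = ((X ^ q - C X) * C N) * C g0 ^ a * C s + ((X ^ q - C X) * C N) * C g1 ^ a * C t := by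
      have h2 : (C s * C g0 ^ a + C t * C g1 ^ a : L[X][Y]) = 1 := by
        rw [← C_pow, ← C_pow, ← C_mul, ← C_mul, ← C_add, hst, C_1]
      linear_combination (-((X ^ q - C X) * C N : L[X][Y])) * h2
    rw [h1]
    exact dvd_add (hs0.mul_right _) (hs1.mul_right _)
  have hG' : h' ∣ ((C (X ^ q) - X) * N.map C : L[X][Y]) := by
    have := map_dvd (Bivariate.swap (R := L)) hG
    rwa [map_mul, hswapG, Bivariate.swap_C] at this
  have hG0 : (C (X ^ q) - X : L[X][Y]) ≠ 0 := by
    intro h0
    have := congrArg (fun P => coeff P 1) h0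
    rw [coeff_sub, coeff_C, if_neg one_ne_zero, coeff_X_one, coeff_zero] at this
    simp at this
  have hNC : (N.map C : L[X][Y]) ≠ 0 := (Polynomial.map_ne_zero_iff C_injective).mpr hN
  have h5 := natDegree_le_of_dvd hG' (mul_ne_zero hG0 hNC)
  omega

end Pool.Agent.Lib_MP_e76747_rs
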