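import Pool.Agent.Lib_MP_e76747_rs.Curve

/-! # The torsion argument with an auxiliary form `s(x,y)` -/

namespace Pool.Agent.Lib_MP_e76747_rs

open Polynomial Polynomial.Bivariate

variable {L : Type*} [Field L]

/-- hypotheses on the four polynomials -/
structure CurveData (d : ℕ) (g0 g1 k0 k1 : L[X]) : Prop where
  hd : 1 ≤ d
  hg0 : g0.natDegree ≤ d
  hg1 : g1.natDegree ≤ d
  hk0 : k0.natDegree ≤ d
  hk1 : k1.natDegree ≤ d
  hcg : IsCoprime g0 g1
  hck : IsCoprime k0 k1
  hlead : g0.coeff d * k1.coeff d - g1.coeff d * k0.coeff d ≠ 0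
  hb0 : k0.coeff d ≠ 0

variable {d q : ℕ} {g0 g1 k0 k1 : L[X]}

lemma CurveData.deg (D : CurveData d g0 g1 k0 k1) :
    (hh g0 g1 k0 k1).natDegree = d ∧ hh g0 g1 k0 k1 ≠ 0 := by
  have hcoefd : (hh g0 g1 k0 k1).coeff d = g0 * C (k1.coeff d) - g1 * C (k0.coeff d) := by
    rw [hh, coeff_sub, coeff_C_mul, coeff_C_mul, coeff_map, coeff_map]
  have hcoefd0 : (hh g0 g1 k0 k1).coeff d ≠ 0 := by
    intro h0
    apply D.hlead
    have := congrArg (fun P => coeff P d) (hcoefd.symm.trans h0)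
    simpa using this
  constructor
  · apply le_antisymm
    · rw [hh]
      refine (natDegree_sub_le _ _).trans (max_le ?_ ?_)
      · refine (natDegree_C_mul_le _ _).trans (natDegree_map_le.trans D.hk1)
      · refine (natDegree_C_mul_le _ _).trans (natDegree_map_le.trans D.hk0)
    · exact le_natDegree_of_ne_zero hcoefd0
  · intro h0
    rw [h0, coeff_zero] at hcoefd0
    exact hcoefd0 rfl

lemma CurveData.deg' (D : CurveData d g0 g1 k0 k1) :
    (Bivariate.swap (hh g0 g1 k0 k1)).natDegree = d ∧ Bivariate.swap (hh g0 g1 k0 k1) ≠ 0 ∧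
      ((Bivariate.swap (hh g0 g1 k0 k1)).coeff d).coeff d ≠ 0 := by
  have hs := swap_hh g0 g1 k0 k1
  have hcoefd' : (Bivariate.swap (hh g0 g1 k0 k1)).coeff d
      = C (g0.coeff d) * k1 - C (g1.coeff d) * k0 := by
    rw [hs, coeff_sub, coeff_mul_C, coeff_mul_C, coeff_map, coeff_map]
  have hcc : ((Bivariate.swap (hh g0 g1 k0 k1)).coeff d).coeff d ≠ 0 := by
    rw [hcoefd', coeff_sub, coeff_C_mul, coeff_C_mul]
    exact D.hlead
  have hcoefd0' : (Bivariate.swap (hh g0 g1 k0 k1)).coeff d ≠ 0 := by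
    intro h0
    rw [h0, coeff_zero] at hcc
    exact hcc rfl
  refine ⟨?_, ?_, hcc⟩
  · apply le_antisymm
    · rw [hs]
      refine (natDegree_sub_le _ _).trans (max_le ?_ ?_)
      · refine (natDegree_mul_C_le _ _).trans (natDegree_map_le.trans D.hg0)
      · refine (natDegree_mul_C_le _ _).trans (natDegree_map_le.trans D.hg1)
    · exact le_natDegree_of_ne_zero hcoefd0'
  · intro h0
    rw [h0, coeff_zero] at hcoefd0'
    exact hcoefd0' rfl

lemma CurveData.exists_rho (D : CurveData d g0 g1 k0 k1) :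
    ∃ ρ : L[X][Y], (Bivariate.swap ρ).natDegree ≤ d ∧
      hh g0 g1 k0 k1 ∣ k0.map C * ρ - C g0 ∧ hh g0 g1 k0 k1 ∣ k1.map C * ρ - C g1 := by
  obtain ⟨β, α, hαβ⟩ := D.hck
  have hαβ' : β.map C * k0.map C + α.map C * k1.map C = (1 : L[X][Y]) := by
    rw [← Polynomial.map_mul, ← Polynomial.map_mul, ← Polynomial.map_add, hαβ, Polynomial.map_one]
  refine ⟨α.map C * C g1 + β.map C * C g0, ?_, ?_, ?_⟩
  · have e : Bivariate.swap (α.map C * C g1 + β.map C * C g0 : L[X][Y])
        = C α * g1.map C + C β * g0.map C := by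
      rw [map_add, map_mul, map_mul, Bivariate.swap_C, Bivariate.swap_C,
        Bivariate.swap_map_C, Bivariate.swap_map_C]
    rw [e]
    refine (natDegree_add_le _ _).trans (max_le ?_ ?_)
    · exact (natDegree_C_mul_le _ _).trans (natDegree_map_le.trans D.hg1)
    · exact (natDegree_C_mul_le _ _).trans (natDegree_map_le.trans D.hg0)
  · refine ⟨-(α.map C), ?_⟩
    rw [hh]
    linear_combination (C g0) * hαβ'
  · refine ⟨β.map C, ?_⟩
    rw [hh]
    linear_combination (C g1) * hαβ'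

theorem CurveData.step (D : CurveData d g0 g1 k0 k1) (hq : 2 ≤ q) {i j : ℕ} {ρ s v : L[X][Y]}
    (hρdeg : (Bivariate.swap ρ).natDegree ≤ d)
    (hr0 : hh g0 g1 k0 k1 ∣ k0.map C * ρ - C g0)
    (hsy : s.natDegree ≤ j) (hsx : (Bivariate.swap s).natDegree ≤ i)
    (hbj : (q - 1) % d + j < d)
    (hv : hh g0 g1 k0 k1 ∣ (X - C (X ^ q)) * v - (X ^ q - C X) * s) :
    ∃ E : L[X][Y], E.natDegree < d ∧ hh g0 g1 k0 k1 ∣ v * ρ ^ ((q - 1) / d) - E ∧
      (E ≠ 0 → (Bivariate.swap E).natDegree + (q - 1) % d ≤ i) := by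
  have hd := D.hd
  obtain ⟨hdeg, hne⟩ := D.deg
  obtain ⟨hdeg', hne', hcc⟩ := D.deg'
  set h := hh g0 g1 k0 k1 with hh_def
  set h' := Bivariate.swap h with h'_def
  set a := (q - 1) / d with ha
  set b := (q - 1) % d with hb
  have hab : d * a + b = q - 1 := Nat.div_add_mod _ _
  have hbd : b < d := Nat.mod_lt _ (by omega)
  -- orders at y = infinity
  have hu1 : (X - C (X ^ q) : L[X][Y]).natDegree ≤ 1 := by
    rw [natDegree_X_sub_C]
  have hu2 : IsUnit ((X - C (X ^ q) : L[X][Y]).coeff 1) := by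
    rw [coeff_sub, coeff_X_one, coeff_C, if_neg one_ne_zero, sub_zero]
    exact isUnit_one
  have hG1 : ((X ^ q - C X) * s : L[X][Y]).natDegree ≤ q + j := by
    refine natDegree_mul_le.trans (Nat.add_le_add ((natDegree_sub_le _ _).trans (max_le ?_ ?_)) hsy)
    · exact natDegree_X_pow_le q
    · simp
  set nv := max v.natDegree (q + j) with hnv
  have ov : Ord h d v nv (1 + nv - (q + j)) :=
    Ord.solve hdeg hu1 hu2 (le_max_left _ _) hG1 (by omega) hv
  have oρ : Ord h d ρ ρ.natDegree (d + ρ.natDegree - 0) := by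
    refine Ord.solve (u := k0.map C) (G := C g0) hdeg (natDegree_map_le.trans D.hk0) ?_ le_rfl
      (by simp) (by omega) hr0
    rw [coeff_map]
    exact (IsUnit.mk0 _ D.hb0).map C
  have of := ov.mul (oρ.pow a)
  obtain ⟨E, hE1, hE2⟩ := of.reduce hdeg hne (by omega) (by
    have hqn : q + j ≤ nv := le_max_right _ _
    have e1 : a * (d + ρ.natDegree - 0) = d * a + a * ρ.natDegree := by
      rw [Nat.sub_zero]; ring
    rw [e1]
    omega)
  refine ⟨E, hE1, hE2, fun hEne => ?_⟩
  by_contra hcon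
  -- orders at x = infinity
  set v' := Bivariate.swap v with hv'
  set ρ' := Bivariate.swap ρ with hρ'
  set E' := Bivariate.swap E with hE'
  have hswapu : Bivariate.swap (X - C (X ^ q) : L[X][Y]) = C X - X ^ q := by
    rw [map_sub, Bivariate.swap_Y, Bivariate.swap_C, Polynomial.map_pow, map_X]
  have hswapG : Bivariate.swap (X ^ q - C X : L[X][Y]) = C (X ^ q) - X := by
    rw [map_sub, map_pow, Bivariate.swap_Y, Bivariate.swap_C, map_X, C_pow]
  have hdvd' : h' ∣ (C X - X ^ q) * v' - (C (X ^ q) - X) * Bivariate.swap s := by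
    have := map_dvd (Bivariate.swap (R := L)) hv
    rwa [map_sub, map_mul, map_mul, hswapu, hswapG] at this
  have hGN : ((C (X ^ q) - X) * Bivariate.swap s : L[X][Y]).natDegree ≤ 1 + i := by
    refine natDegree_mul_le.trans (Nat.add_le_add ?_ hsx)
    refine (natDegree_sub_le _ _).trans (max_le ?_ ?_)
    · simp
    · exact natDegree_X_le
  set nv' := max v'.natDegree i with hnv'
  have hnv1 : i ≤ nv' := le_max_right _ _
  have ov' : Ord h' d v' nv' (q + nv' - (1 + i)) := by
    refine Ord.solve hdeg' ?_ ?_ (le_max_left _ _) hGN (by omega) hdvd'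
    · refine (natDegree_sub_le _ _).trans (max_le ?_ ?_)
      · simp
      · exact natDegree_X_pow_le q
    · rw [coeff_sub, coeff_C, if_neg (by omega), coeff_X_pow, if_pos rfl, zero_sub]
      exact isUnit_one.neg
  have oρ' : Ord h' d ρ' d 0 := Ord.triv hρdeg
  have of' := ov'.mul (oρ'.pow a)
  have hE2' : h' ∣ v' * ρ' ^ a - E' := by
    have := map_dvd (Bivariate.swap (R := L)) hE2
    rwa [map_sub, map_mul, map_pow] at this
  have hcore := of'.core hdeg' hne' hE2' (N := E'.natDegree) le_rfl (by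
    have e1 : a * d = d * a := mul_comm _ _
    have e2 : a * 0 = 0 := mul_zero _
    rw [e1, e2]
    omega)
  have hE0 : E' ≠ 0 := by
    intro h0
    apply hEne
    have := congrArg (Bivariate.swap (R := L)) h0
    rwa [hE', Bivariate.swap_swap_apply, map_zero] at this
  have h1 : E'.coeff E'.natDegree ≠ 0 := leadingCoeff_ne_zero.mpr hE0
  have h2 := natDegree_le_of_dvd hcore h1
  have h3 : d ≤ (h'.coeff d).natDegree := le_natDegree_of_ne_zero hcc
  have h4 : (E'.coeff E'.natDegree).natDegree < d := by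
    refine lt_of_le_of_lt ?_ hE1
    rw [natDegree_le_iff_coeff_eq_zero]
    intro j hj
    rw [hE', coeff_coeff_swap, coeff_eq_zero_of_natDegree_lt hj, coeff_zero]
  omega

theorem CurveData.not_dvd (D : CurveData d g0 g1 k0 k1) (hq : 2 ≤ q) {i : ℕ}
    {ρ s v : L[X][Y]} (hr0 : hh g0 g1 k0 k1 ∣ k0.map C * ρ - C g0)
    (hr1 : hh g0 g1 k0 k1 ∣ k1.map C * ρ - C g1)
    (hs : s ≠ 0) (hsx : (Bivariate.swap s).natDegree ≤ i) (hi : i + 1 < d)
    (hv : hh g0 g1 k0 k1 ∣ (X - C (X ^ q)) * v - (X ^ q - C X) * s) (a : ℕ)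
    (hE2 : hh g0 g1 k0 k1 ∣ v * ρ ^ a) : False := by
  obtain ⟨hdeg', hne', hcc⟩ := D.deg'
  set h := hh g0 g1 k0 k1 with hh_def
  set h' := Bivariate.swap h with h'_def
  have hstep : ∀ (g k : L[X]), h ∣ k.map C * ρ - C g →
      h ∣ ((X ^ q - C X) * s) * C g ^ a := by
    intro g k hgk
    have h1 : h ∣ (k.map C * ρ) ^ a - C g ^ a := hgk.trans (sub_dvd_pow_sub_pow _ _ a)
    have h2 : ((X ^ q - C X) * s) * C g ^ a
        = (X - C (X ^ q)) * (v * ρ ^ a) * (k.map C) ^ a
          - (X - C (X ^ q)) * v * ((k.map C * ρ) ^ a - C g ^ a)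
          - ((X - C (X ^ q)) * v - (X ^ q - C X) * s) * C g ^ a := by
      rw [mul_pow]; ring
    rw [h2]
    refine dvd_sub (dvd_sub ?_ ?_) ?_
    · exact (hE2.mul_left _).mul_right _
    · exact h1.mul_left _
    · exact hv.mul_right _
  have hs0 := hstep g0 k0 hr0
  have hs1 := hstep g1 k1 hr1
  obtain ⟨e0, e1, hst⟩ := (D.hcg.pow (m := a) (n := a))
  have hG : h ∣ ((X ^ q - C X) * s : L[X][Y]) := by
    have h1 : ((X ^ q - C X) * s : L[X][Y])
        = ((X ^ q - C X) * s) * C g0 ^ a * C e0 + ((X ^ q - C X) * s) * C g1 ^ a * C e1 := by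
      have h2 : (C e0 * C g0 ^ a + C e1 * C g1 ^ a : L[X][Y]) = 1 := by
        rw [← C_pow, ← C_pow, ← C_mul, ← C_mul, ← C_add, hst, C_1]
      linear_combination (-((X ^ q - C X) * s : L[X][Y])) * h2
    rw [h1]
    exact dvd_add (hs0.mul_right _) (hs1.mul_right _)
  have hswapG : Bivariate.swap (X ^ q - C X : L[X][Y]) = C (X ^ q) - X := by
    rw [map_sub, map_pow, Bivariate.swap_Y, Bivariate.swap_C, map_X, C_pow]
  have hG' : h' ∣ ((C (X ^ q) - X) * Bivariate.swap s : L[X][Y]) := by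
    have := map_dvd (Bivariate.swap (R := L)) hG
    rwa [map_mul, hswapG] at this
  have hG0 : (C (X ^ q) - X : L[X][Y]) ≠ 0 := by
    intro h0
    have := congrArg (fun P => coeff P 1) h0
    rw [coeff_sub, coeff_C, if_neg one_ne_zero, coeff_X_one, coeff_zero] at this
    simp at this
  have hs' : Bivariate.swap s ≠ 0 := by
    intro h0
    apply hs
    have := congrArg (Bivariate.swap (R := L)) h0
    rwa [Bivariate.swap_swap_apply, map_zero] at this
  have hGN : ((C (X ^ q) - X) * Bivariate.swap s : L[X][Y]).natDegree ≤ 1 + i := by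
    refine natDegree_mul_le.trans (Nat.add_le_add ?_ hsx)
    refine (natDegree_sub_le _ _).trans (max_le ?_ ?_)
    · simp
    · exact natDegree_X_le
  have h5 := natDegree_le_of_dvd hG' (mul_ne_zero hG0 hs')
  omega

end Pool.Agent.Lib_MP_e76747_rs
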