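import Mathlib

/-! # Blocks of Reed-Solomon codes over an extension field, as matrices over the base field -/

namespace Pool.Agent.Lib_MP_e76747_rs

/-- The matrix over `F`, in the basis `b` of `L` over `F`, of the `F`-linear map
`L → L ^ r`, `e ↦ (x ^ k * z ^ (r - 1 - k) * e)_{k < r}`: the block of the Reed-Solomon code (over
`L`) with `r` parity checks that belongs to the evaluation point `(x : z)` of the projective line
over `L` (`z = 1`: the usual column `1, x, x ^ 2, …, x ^ (r - 1)`; `(1 : 0)`: infinity). -/
noncomputable def rsBlock {F L : Type*} [Field F] [Field L] [Algebra F L] {l : ℕ}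
    (b : Module.Basis (Fin l) F L) (r : ℕ) (x z : L) : Matrix (Fin r × Fin l) (Fin l) F :=
  Matrix.of fun a c => b.repr (x ^ (a.1 : ℕ) * z ^ (r - 1 - (a.1 : ℕ)) * b c) a.2

/-- The excess over the bound: for `b = m % d` it is `0` if `b = 0`, `d - 1` if `b = d - 1`, and
`(b + 1) * (d - b)` otherwise (used for `d = r - 1`, `m = q - 1`). -/
def excess (d m : ℕ) : ℕ :=
  if m % d = 0 then 0 else if m % d + 1 = d then d - 1 else (m % d + 1) * (d - m % d)

end Pool.Agent.Lib_MP_e76747_rs
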