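import Pool.Agent.Lib_MP_e76747.Crit
import Pool.Agent.Lib_MP_e76747_rs.RSDefs

/-! # Row vectors over `F` as polynomials over `L`; the MDS property -/

namespace Pool.Agent.Lib_MP_e76747_rs

open Matrix Pool.Agent.Lib_MP_e76747

variable {F L : Type*} [Field F] [Fintype F] [Field L] [Fintype L] [Algebra F L] {l r : ℕ}

/-- the identification of `L` with its dual by the trace form -/
noncomputable def dualEquiv (F L : Type*) [Field F] [Fintype F] [Field L] [Fintype L]
    [Algebra F L] : L ≃ₗ[F] Module.Dual F L :=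
  (Algebra.traceForm F L).toDual (traceForm_nondegenerate F L)

lemma dualEquiv_apply (x y : L) : dualEquiv F L x y = Algebra.trace F L (x * y) := by
  unfold dualEquiv
  rw [LinearMap.BilinForm.toDual_def, Algebra.traceForm_apply]

/-- the coefficients over `L` of a row vector over `F` -/
noncomputable def cf (b : Module.Basis (Fin l) F L) (m : Fin r × Fin l → F) (k : Fin r) : L :=
  (dualEquiv F L).symm (∑ s, m (k, s) • b.coord s)

lemma trace_cf (b : Module.Basis (Fin l) F L) (m : Fin r × Fin l → F) (k : Fin r) (y : L) :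
    Algebra.trace F L (cf b m k * y) = ∑ s, m (k, s) * b.repr y s := by
  rw [← dualEquiv_apply, cf, LinearEquiv.apply_symm_apply]
  simp [LinearMap.sum_apply]

lemma cf_comb (b : Module.Basis (Fin l) F L) (m0 m1 : Fin r × Fin l → F) (c0 c1 : F) (k : Fin r) :
    cf b (c0 • m0 + c1 • m1) k
      = algebraMap F L c0 * cf b m0 k + algebraMap F L c1 * cf b m1 k := by
  unfold cf
  rw [← Algebra.smul_def, ← Algebra.smul_def, ← map_smul, ← map_smul, ← map_add]
  congr 1
  rw [Finset.smul_sum, Finset.smul_sum, ← Finset.sum_add_distrib]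
  refine Finset.sum_congr rfl fun s _ => ?_
  rw [smul_smul, smul_smul, ← add_smul]
  rfl

lemma cf_eq_zero (b : Module.Basis (Fin l) F L) (m : Fin r × Fin l → F)
    (h : ∀ k, cf b m k = 0) : m = 0 := by
  ext ⟨k, s⟩
  have h1 := h k
  unfold cf at h1
  rw [LinearEquiv.map_eq_zero_iff] at h1
  have h2 := congrArg (fun φ => φ (b s)) h1
  simp only [LinearMap.sum_apply, LinearMap.smul_apply, Module.Basis.coord_apply,
    Module.Basis.repr_self, smul_eq_mul, LinearMap.zero_apply] at h2
  rw [Finset.sum_eq_single s] at h2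
  · simpa using h2
  · intro s' _ hs'
    rw [Finsupp.single_eq_of_ne hs', mul_zero]
  · intro h3; exact absurd (Finset.mem_univ s) h3

/-- the binary form of a row vector -/
noncomputable def G (b : Module.Basis (Fin l) F L) (m : Fin r × Fin l → F) (x z : L) : L :=
  ∑ k : Fin r, cf b m k * (x ^ (k : ℕ) * z ^ (r - 1 - (k : ℕ)))

lemma vecMul_rsBlock (b : Module.Basis (Fin l) F L) (m : Fin r × Fin l → F) (x z : L)
    (c : Fin l) : (m ᵥ* rsBlock b r x z) c = Algebra.trace F L (G b m x z * b c) := by
  unfold G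
  rw [Finset.sum_mul, map_sum]
  simp only [mul_assoc (cf _ _ _), trace_cf]
  rw [Matrix.vecMul, dotProduct, Fintype.sum_prod_type]
  rfl

lemma vecMul_rsBlock_eq_zero_iff (b : Module.Basis (Fin l) F L) (m : Fin r × Fin l → F)
    (x z : L) : m ᵥ* rsBlock b r x z = 0 ↔ G b m x z = 0 := by
  constructor
  · intro h
    have h1 : dualEquiv F L (G b m x z) = 0 := by
      apply b.ext
      intro c
      rw [dualEquiv_apply, ← vecMul_rsBlock, h]
      simp
    exact (LinearEquiv.map_eq_zero_iff _).mp h1
  · intro h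
    ext c
    rw [vecMul_rsBlock, h, zero_mul, map_zero]
    rfl

lemma G_comb (b : Module.Basis (Fin l) F L) (m0 m1 : Fin r × Fin l → F) (c0 c1 : F) (x z : L) :
    G b (c0 • m0 + c1 • m1) x z
      = algebraMap F L c0 * G b m0 x z + algebraMap F L c1 * G b m1 x z := by
  unfold G
  rw [Finset.mul_sum, Finset.mul_sum, ← Finset.sum_add_distrib]
  refine Finset.sum_congr rfl fun k _ => ?_
  rw [cf_comb]
  ring

/-- Reed-Solomon codes are MDS. -/
theorem isMDS_rs (b : Module.Basis (Fin l) F L) {n : ℕ} (x z : Fin n → L)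
    (hP : ∀ i j, i ≠ j → x i * z j ≠ x j * z i)
    (T : Fin n → Matrix (Fin l) (Fin l) F) (hT : ∀ j, IsUnit (T j))
    (H : Fin n → Matrix (Fin r × Fin l) (Fin l) F)
    (hH : ∀ j, H j = rsBlock b r (x j) (z j) * T j) : IsMDS H := by
  intro e he
  rw [← Matrix.vecMul_injective_iff_isUnit]
  have key : ∀ m : Fin r × Fin l → F, m ᵥ* blockMatrix H e = 0 → m = 0 := by
    intro m hm
    have h1 : ∀ b' : Fin r, m ᵥ* H (e b') = 0 := by
      intro b'
      ext c
      have := congrFun hm (b', c)
      simpa [Matrix.vecMul, dotProduct, blockMatrix] using this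
    have h2 : ∀ b' : Fin r, G b m (x (e b')) (z (e b')) = 0 := by
      intro b'
      rw [← vecMul_rsBlock_eq_zero_iff]
      have h3 := h1 b'
      rw [hH, ← Matrix.vecMul_vecMul] at h3
      have hinj := Matrix.vecMul_injective_of_isUnit (hT (e b'))
      apply hinj
      simpa using h3
    have h4 : IsUnit (projVandermonde (fun b' => x (e b')) (fun b' => z (e b'))) := by
      rw [Matrix.isUnit_iff_isUnit_det, det_projVandermonde, isUnit_iff_ne_zero]
      rw [Finset.prod_ne_zero_iff]
      intro i _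
      rw [Finset.prod_ne_zero_iff]
      intro j hj
      have hij : i ≠ j := (Finset.mem_Ioi.mp hj).ne
      have := hP (e j) (e i) (fun h => hij (he h).symm)
      exact sub_ne_zero.mpr this
    have h5 : projVandermonde (fun b' => x (e b')) (fun b' => z (e b')) *ᵥ (cf b m) = 0 := by
      ext b'
      have := h2 b'
      unfold G at this
      rw [Pi.zero_apply, ← this, Matrix.mulVec, dotProduct]
      refine Finset.sum_congr rfl fun k _ => ?_
      rw [projVandermonde_apply, mul_comm]
      congr 3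
      rw [Fin.val_rev]
      omega
    have h6 : cf b m = 0 := by
      have hinj := (Matrix.mulVec_injective_iff_isUnit.mpr h4)
      apply hinj
      simpa using h5
    exact cf_eq_zero b m (fun k => congrFun h6 k)
  intro m m' hmm
  have h1 : (m - m') ᵥ* blockMatrix H e = 0 := by
    rw [Matrix.sub_vecMul]
    exact sub_eq_zero.mpr hmm
  exact sub_eq_zero.mp (key _ h1)

/-- every node has a repair matrix -/
lemma exists_repair (b : Module.Basis (Fin l) F L) {n : ℕ} (x z : Fin n → L) (hr : 1 ≤ r)
    (i : Fin n) (hi : ¬ (x i = 0 ∧ z i = 0))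
    (T : Fin n → Matrix (Fin l) (Fin l) F) (hT : ∀ j, IsUnit (T j))
    (H : Fin n → Matrix (Fin r × Fin l) (Fin l) F)
    (hH : ∀ j, H j = rsBlock b r (x j) (z j) * T j) : ∃ M, IsRepair H i M := by
  obtain ⟨k, hk⟩ : ∃ k : Fin r, x i ^ (k : ℕ) * z i ^ (r - 1 - (k : ℕ)) ≠ 0 := by
    by_cases hz : z i = 0
    · refine ⟨⟨r - 1, by omega⟩, ?_⟩
      have hx : x i ≠ 0 := fun h => hi ⟨h, hz⟩
      simp [hx]
    · exact ⟨⟨0, by omega⟩, by simp [hz]⟩
  refine ⟨Matrix.of fun c p => if p.1 = k then (if c = p.2 then 1 else 0) else 0, ?_⟩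
  unfold IsRepair
  rw [hH, ← Matrix.mul_assoc]
  refine IsUnit.mul ?_ (hT i)
  have h1 : (Matrix.of fun (c : Fin l) (p : Fin r × Fin l) =>
      if p.1 = k then (if c = p.2 then (1 : F) else 0) else 0) * rsBlock b r (x i) (z i)
      = Algebra.leftMulMatrix b (x i ^ (k : ℕ) * z i ^ (r - 1 - (k : ℕ))) := by
    ext c c'
    rw [Matrix.mul_apply, Fintype.sum_prod_type, Finset.sum_eq_single k]
    · rw [Finset.sum_eq_single c]
      · simp [rsBlock, Algebra.leftMulMatrix_eq_repr_mul]
      · intro s _ hs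
        simp [Ne.symm hs]
      · intro h; exact absurd (Finset.mem_univ _) h
    · intro k' _ hk'
      apply Finset.sum_eq_zero
      intro s _
      simp [hk']
    · intro h; exact absurd (Finset.mem_univ _) h
  rw [h1]
  exact (IsUnit.mk0 _ hk).map (Algebra.leftMulMatrix b)

end Pool.Agent.Lib_MP_e76747_rs
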