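import Mathlib

/-! # Bivariate forms of bounded bidegree that vanish on a divisor of the graph of `x ^ q` -/

namespace Pool.Agent.Lib_MP_e76747_rs

open Polynomial Polynomial.Bivariate

variable {L : Type*} [Field L] {m n : ℕ}

/-- the form with the coefficients `c` -/
noncomputable def fm (c : Fin m × Fin n → L) : L[X][Y] :=
  ∑ p : Fin m × Fin n, C (C (c p) * X ^ (p.1 : ℕ)) * X ^ (p.2 : ℕ)

lemma fm_coeff (c : Fin m × Fin n → L) (k : Fin m) (l : Fin n) :
    ((fm c).coeff l).coeff k = c (k, l) := by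
  classical
  unfold fm
  rw [finsetSum_coeff, finsetSum_coeff, Finset.sum_eq_single (k, l)]
  · rw [coeff_C_mul, coeff_X_pow, if_pos rfl, mul_one, coeff_C_mul, coeff_X_pow, if_pos rfl,
      mul_one]
  · intro p _ hp
    rw [coeff_C_mul, coeff_X_pow]
    by_cases h2 : (l : ℕ) = (p.2 : ℕ)
    · rw [if_pos h2, mul_one, coeff_C_mul, coeff_X_pow, if_neg, mul_zero]
      intro h1
      apply hp
      exact Prod.ext (Fin.ext h1.symm) (Fin.ext h2.symm)
    · rw [if_neg h2, mul_zero, coeff_zero]
  · intro h; exact absurd (Finset.mem_univ _) h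

lemma fm_ne_zero {c : Fin m × Fin n → L} (hc : c ≠ 0) : fm c ≠ 0 := by
  intro h
  apply hc
  ext p
  rw [← fm_coeff c p.1 p.2, h, coeff_zero, coeff_zero]
  rfl

lemma fm_natDegree (c : Fin m × Fin n → L) : (fm c).natDegree ≤ n - 1 := by
  unfold fm
  refine natDegree_sum_le_of_forall_le _ _ fun p _ => ?_
  refine (natDegree_C_mul_X_pow_le _ _).trans ?_
  have := p.2.2
  omega

lemma fm_swap (c : Fin m × Fin n → L) :
    Bivariate.swap (fm c)
      = ∑ p : Fin m × Fin n, C (C (c p) * X ^ (p.2 : ℕ)) * X ^ (p.1 : ℕ) := by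
  unfold fm
  rw [map_sum]
  refine Finset.sum_congr rfl fun p _ => ?_
  rw [map_mul, map_pow, Bivariate.swap_Y, Bivariate.swap_C, Polynomial.map_mul, map_C,
    Polynomial.map_pow, map_X, C_mul, C_pow]
  ring

lemma fm_swap_natDegree (c : Fin m × Fin n → L) :
    (Bivariate.swap (fm c)).natDegree ≤ m - 1 := by
  rw [fm_swap]
  refine natDegree_sum_le_of_forall_le _ _ fun p _ => ?_
  refine (natDegree_C_mul_X_pow_le _ _).trans ?_
  have := p.1.2
  omega

lemma fm_eval (c : Fin m × Fin n → L) (q : ℕ) :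
    (fm c).eval (X ^ q : L[X]) = ∑ p : Fin m × Fin n, C (c p) * X ^ ((p.1 : ℕ) + q * p.2) := by
  unfold fm
  rw [eval_finset_sum]
  refine Finset.sum_congr rfl fun p _ => ?_
  rw [eval_mul, eval_C, eval_pow, eval_X, pow_add, pow_mul]
  ring

lemma fm_lin (c c' : Fin m × Fin n → L) (a a' : L) :
    C (C a) * fm c - C (C a') * fm c' = fm (fun p => a * c p - a' * c' p) := by
  unfold fm
  rw [Finset.mul_sum, Finset.mul_sum, ← Finset.sum_sub_distrib]
  refine Finset.sum_congr rfl fun p _ => ?_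
  simp only [C_mul, C_sub, sub_mul]
  ring

lemma exists_relation {N : L[X]} (hN : N ≠ 0) {e : ℕ} (q : ℕ) (w : Fin e → Fin m × Fin n → L)
    (hcard : N.natDegree + e < m * n) :
    ∃ c : Fin m × Fin n → L, c ≠ 0 ∧ (∀ t, ∑ p, c p * w t p = 0) ∧
      N ∣ (fm c).eval (X ^ q : L[X]) := by
  classical
  set N' : L[X] := N * C (N.leadingCoeff⁻¹) with hN'
  have hmon : N'.Monic := monic_mul_leadingCoeff_inv hN
  have hdeg : N'.natDegree = N.natDegree :=
    natDegree_mul_C (inv_ne_zero (leadingCoeff_ne_zero.mpr hN))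
  let v : Fin m × Fin n → (Fin N.natDegree ⊕ Fin e) → L := fun p =>
    Sum.elim (fun t => ((X ^ ((p.1 : ℕ) + q * p.2) : L[X]) %ₘ N').coeff t) (fun t => w t p)
  have hnli : ¬ LinearIndependent L v := by
    intro hli
    have h1 := hli.fintype_card_le_finrank
    rw [Module.finrank_fintype_fun_eq_card, Fintype.card_prod, Fintype.card_sum,
      Fintype.card_fin, Fintype.card_fin, Fintype.card_fin, Fintype.card_fin] at h1
    omega
  rw [Fintype.not_linearIndependent_iff] at hnli
  obtain ⟨g, hg, p0, hp0⟩ := hnli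
  refine ⟨g, fun h => hp0 (congrFun h p0), fun t => ?_, ?_⟩
  · have := congrFun hg (Sum.inr t)
    simpa [v, Finset.sum_apply] using this
  · have hrem : ((fm g).eval (X ^ q : L[X])) %ₘ N' = 0 := by
      have hlin : ((fm g).eval (X ^ q : L[X])) %ₘ N'
          = ∑ p : Fin m × Fin n, g p • ((X ^ ((p.1 : ℕ) + q * p.2) : L[X]) %ₘ N') := by
        rw [fm_eval]
        have h1 : ∀ f : L[X], f %ₘ N' = modByMonicHom N' f := fun f => rfl
        rw [h1, map_sum]
        refine Finset.sum_congr rfl fun p _ => ?_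
        rw [← smul_eq_C_mul, map_smul]
        rfl
      ext t
      rw [hlin, finsetSum_coeff, coeff_zero]
      by_cases ht : t < N.natDegree
      · have := congrFun hg (Sum.inl ⟨t, ht⟩)
        simpa [v, Finset.sum_apply] using this
      · apply Finset.sum_eq_zero
        intro p _
        rw [coeff_smul, coeff_eq_zero_of_degree_lt, smul_zero]
        refine lt_of_lt_of_le (degree_modByMonic_lt _ hmon) ?_
        rw [degree_eq_natDegree hmon.ne_zero, hdeg]
        exact_mod_cast Nat.le_of_not_lt ht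
    have h2 : N' ∣ (fm g).eval (X ^ q : L[X]) := (modByMonic_eq_zero_iff_dvd hmon).mp hrem
    exact (dvd_mul_right N _).trans h2

lemma eq_map_C {E : L[X][Y]} (h : (Bivariate.swap E).natDegree = 0) :
    ∃ p : L[X], E = p.map C := by
  refine ⟨(Bivariate.swap E).coeff 0, ?_⟩
  have h1 := eq_C_of_natDegree_eq_zero h
  have h2 := congrArg (Bivariate.swap (R := L)) h1
  rwa [Bivariate.swap_swap_apply, Bivariate.swap_C] at h2

end Pool.Agent.Lib_MP_e76747_rs
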