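import Mathlib

/-! # Orders at infinity modulo a polynomial -/

namespace Pool.Agent.Lib_MP_e76747_rs

open Polynomial

variable {K : Type*} [CommRing K]

lemma reflect_of_le (f : K[X]) {n m : ℕ} (hf : f.natDegree ≤ n) (hnm : n ≤ m) :
    reflect m f = X ^ (m - n) * reflect n f := by
  have h1 := reflect_mul f (1 : K[X]) (F := n) (G := m - n) hf (by simp)
  rw [mul_one, reflect_one] at h1
  have h2 : n + (m - n) = m := by omega
  rw [h2] at h1
  rw [h1, mul_comm]

lemma inv_mod (U : K[X]) (hU : IsUnit (U.coeff 0)) (e : ℕ) :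
    ∃ U' Z : K[X], U' * U = 1 + X ^ e * Z := by
  obtain ⟨c, hc⟩ := hU.exists_right_inv
  have h1 : (1 - C c * U).coeff 0 = 0 := by
    simp only [coeff_sub, coeff_one_zero, coeff_C_mul]
    rw [mul_comm c, hc, sub_self]
  obtain ⟨S, hS⟩ := X_dvd_iff.mpr h1
  refine ⟨C c * ∑ i ∈ Finset.range e, (X * S) ^ i, - S ^ e, ?_⟩
  have h2 : C c * U = 1 - X * S := by rw [← hS]; ring
  calc C c * (∑ i ∈ Finset.range e, (X * S) ^ i) * U
      = (C c * U) * ∑ i ∈ Finset.range e, (X * S) ^ i := by ring
    _ = (1 - X * S) * ∑ i ∈ Finset.range e, (X * S) ^ i := by rw [h2]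
    _ = 1 - (X * S) ^ e := mul_neg_geom_sum _ _
    _ = 1 + X ^ e * -S ^ e := by rw [mul_pow]; ring

variable [IsDomain K]

/-- `f` has order at infinity at least `e - n` modulo `h` (`h` of degree `d`). -/
def Ord (h : K[X]) (d : ℕ) (f : K[X]) (n e : ℕ) : Prop :=
  f.natDegree ≤ n ∧ ∃ V : K[X], reflect d h ∣ reflect n f - X ^ e * V

lemma dvd_reflect {h F G : K[X]} {d n : ℕ} (hd : h.natDegree = d)
    (hF : F.natDegree ≤ n) (hG : G.natDegree ≤ n) (hdvd : h ∣ F - G) :
    reflect d h ∣ reflect n F - reflect n G := by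
  obtain ⟨k, hk⟩ := hdvd
  rw [← reflect_sub, hk]
  by_cases h0 : h * k = 0
  · rw [h0, reflect_zero]; exact dvd_zero _
  have hh : h ≠ 0 := left_ne_zero_of_mul h0
  have hk0 : k ≠ 0 := right_ne_zero_of_mul h0
  have h1 : (h * k).natDegree = d + k.natDegree := by
    rw [natDegree_mul hh hk0, hd]
  have h2 : (h * k).natDegree ≤ n := by
    rw [← hk]
    exact (natDegree_sub_le_iff_left hG).mpr hF
  have h3 : d + (n - d) = n := by omega
  have h4 := reflect_mul h k (F := d) (G := n - d) hd.le (by omega)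
  rw [h3] at h4
  rw [h4]
  exact dvd_mul_right _ _

lemma Ord.triv {h f : K[X]} {d n : ℕ} (hf : f.natDegree ≤ n) : Ord h d f n 0 :=
  ⟨hf, reflect n f, by simp⟩

lemma Ord.mul {h f g : K[X]} {d n e n' e' : ℕ} (hf : Ord h d f n e) (hg : Ord h d g n' e') :
    Ord h d (f * g) (n + n') (e + e') := by
  obtain ⟨hf1, V, hV⟩ := hf
  obtain ⟨hg1, W, hW⟩ := hg
  refine ⟨natDegree_mul_le.trans (by omega), V * W, ?_⟩
  rw [reflect_mul f g hf1 hg1]
  have : reflect n f * reflect n' g - X ^ (e + e') * (V * W)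
      = (reflect n f - X ^ e * V) * reflect n' g + X ^ e * V * (reflect n' g - X ^ e' * W) := by
    ring
  rw [this]
  exact dvd_add (hV.mul_right _) (hW.mul_left _)

lemma Ord.pow {h f : K[X]} {d n e : ℕ} (hf : Ord h d f n e) (a : ℕ) :
    Ord h d (f ^ a) (a * n) (a * e) := by
  induction a with
  | zero => simpa using Ord.triv (h := h) (d := d) (f := (1 : K[X])) (n := 0) (by simp)
  | succ a ih =>
    have := ih.mul hf
    rw [pow_succ]
    have e1 : (a + 1) * n = a * n + n := by ring
    have e2 : (a + 1) * e = a * e + e := by ring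
    rw [e1, e2]
    exact this

lemma Ord.solve {h u F G : K[X]} {d m n k : ℕ} (hd : h.natDegree = d)
    (hu : u.natDegree ≤ m) (hc : IsUnit (u.coeff m)) (hF : F.natDegree ≤ n)
    (hG : G.natDegree ≤ k) (hk : k ≤ m + n) (hdvd : h ∣ u * F - G) :
    Ord h d F n (m + n - k) := by
  set e := m + n - k with he
  have h1 : reflect d h ∣ reflect (m + n) (u * F) - reflect (m + n) G := by
    refine dvd_reflect hd (natDegree_mul_le.trans (by omega)) (by omega) hdvd
  rw [reflect_mul u F hu hF, reflect_of_le G hG hk, ← he] at h1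
  have h2 : IsUnit ((reflect m u).coeff 0) := by
    rw [coeff_reflect, revAt_zero]; exact hc
  obtain ⟨U', Z, hU⟩ := inv_mod (reflect m u) h2 e
  refine ⟨hF, U' * reflect k G - Z * reflect n F, ?_⟩
  have h3 : reflect n F - X ^ e * (U' * reflect k G - Z * reflect n F)
      = U' * (reflect m u * reflect n F - X ^ e * reflect k G) := by
    linear_combination (-reflect n F) * hU
  rw [h3]
  exact h1.mul_left _

lemma dvd_of_dvd_X_pow_mul {A B : K[X]} (hA : A.coeff 0 ≠ 0) (k : ℕ) (h : A ∣ X ^ k * B) :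
    A ∣ B := by
  induction k with
  | zero => simpa using h
  | succ k ih =>
    apply ih
    obtain ⟨D, hD⟩ := h
    have h1 : (X : K[X]) ∣ A * D := by
      rw [← hD, pow_succ]
      exact ⟨X ^ k * B, by ring⟩
    rcases (prime_X (R := K)).dvd_or_dvd h1 with h2 | h2
    · exact absurd (X_dvd_iff.mp h2) hA
    · obtain ⟨D', rfl⟩ := h2
      refine ⟨D', ?_⟩
      have h3 : (X : K[X]) * (X ^ k * B) = X * (A * D') := by
        rw [← mul_assoc, ← pow_succ', hD]; ring
      exact mul_left_cancel₀ X_ne_zero h3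

lemma Ord.core {h f E : K[X]} {d n e N : ℕ} (hd : h.natDegree = d) (hh : h ≠ 0)
    (hf : Ord h d f n e) (hE : h ∣ f - E) (hN : E.natDegree ≤ N) (hne : n + 1 ≤ N + e) :
    h.coeff d ∣ E.coeff N := by
  obtain ⟨hf1, V, hV⟩ := hf
  set M := max n N with hM
  have hnM : n ≤ M := le_max_left _ _
  have hNM : N ≤ M := le_max_right _ _
  have h1 := dvd_reflect (n := M) hd (hf1.trans hnM) (hN.trans hNM) hE
  rw [reflect_of_le f hf1 hnM, reflect_of_le E hN hNM] at h1
  obtain ⟨s, hs⟩ : ∃ s, N + e = n + s + 1 := ⟨N + e - n - 1, by omega⟩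
  have h2 : (M - n) + e = (M - N) + (s + 1) := by omega
  have h3 : reflect d h ∣ X ^ (M - N) * (X ^ (s + 1) * V - reflect N E) := by
    have e1 : X ^ (M - N) * (X ^ (s + 1) * V - reflect N E)
        = (X ^ (M - n) * reflect n f - X ^ (M - N) * reflect N E)
          - X ^ (M - n) * (reflect n f - X ^ e * V) := by
      have e2 : (X : K[X]) ^ (M - N) * X ^ (s + 1) = X ^ (M - n) * X ^ e := by
        rw [← pow_add, ← pow_add, h2]
      linear_combination V * e2
    rw [e1]
    exact dvd_sub h1 (hV.mul_left _)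
  have h4 : (reflect d h).coeff 0 = h.coeff d := by
    rw [coeff_reflect, revAt_zero]
  have h5 : h.coeff d ≠ 0 := by
    rw [← hd]
    exact leadingCoeff_ne_zero.mpr hh
  obtain ⟨D, hD⟩ := dvd_of_dvd_X_pow_mul (by rw [h4]; exact h5) _ h3
  have h6 := congrArg (fun P => coeff P 0) hD
  simp only [coeff_sub, mul_coeff_zero, coeff_X_pow, h4] at h6
  rw [coeff_reflect, revAt_zero] at h6
  refine ⟨-D.coeff 0, ?_⟩
  have h7 : (if 0 = s + 1 then (1 : K) else 0) = 0 := by
    rw [if_neg]; omega
  rw [h7] at h6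
  linear_combination -h6

lemma Ord.reduce {h f : K[X]} {d n e : ℕ} (hd : h.natDegree = d) (hh : h ≠ 0) (hd0 : 0 < d)
    (hf : Ord h d f n e) (hb : n + 1 ≤ d + e) :
    ∃ E : K[X], E.natDegree < d ∧ h ∣ f - E := by
  have key : ∀ N : ℕ, ∀ E : K[X], E.natDegree ≤ N → h ∣ f - E →
      ∃ E' : K[X], E'.natDegree < d ∧ h ∣ f - E' := by
    intro N
    induction N with
    | zero =>
      intro E hE hdvd
      exact ⟨E, by omega, hdvd⟩
    | succ N ih =>
      intro E hE hdvd
      by_cases hN : N + 1 < d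
      · exact ⟨E, by omega, hdvd⟩
      obtain ⟨c, hc⟩ := hf.core hd hh hdvd hE (by omega)
      refine ih (E - C c * X ^ (N + 1 - d) * h) ?_ ?_
      · have h1 : (E - C c * X ^ (N + 1 - d) * h).natDegree ≤ N + 1 := by
          refine (natDegree_sub_le _ _).trans (max_le hE ?_)
          refine natDegree_mul_le.trans ?_
          have := natDegree_C_mul_X_pow_le c (N + 1 - d)
          omega
        have h2 : (E - C c * X ^ (N + 1 - d) * h).coeff (N + 1) = 0 := by
          rw [coeff_sub, hc, mul_assoc, coeff_C_mul, coeff_X_pow_mul']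
          rw [if_pos (by omega)]
          have : N + 1 - (N + 1 - d) = d := by omega
          rw [this]
          ring
        have := natDegree_le_pred h1 h2
        simpa using this
      · have : f - (E - C c * X ^ (N + 1 - d) * h) = (f - E) + h * (C c * X ^ (N + 1 - d)) := by
          ring
        rw [this]
        exact dvd_add hdvd (dvd_mul_right _ _)
  exact key f.natDegree f le_rfl (by simp)

end Pool.Agent.Lib_MP_e76747_rs
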