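import Pool.Agent.Lib_MP_e76747_rs.Curve

/-! # Pencils all of whose members split -/

namespace Pool.Agent.Lib_MP_e76747_rs

open Polynomial

variable {F L : Type*} [Field F] [Fintype F] [Field L] [Fintype L] [Algebra F L]

omit [Fintype L] in
lemma exists_of_pow_card_eq {x : L} (hx : x ^ Fintype.card F = x) :
    ∃ c : F, algebraMap F L c = x := by
  classical
  by_contra hcon
  push Not at hcon
  set q := Fintype.card F with hq
  have hq1 : 1 < q := Fintype.one_lt_card
  set T : Finset L := insert x (Finset.univ.image (algebraMap F L)) with hT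
  have hTc : T.card = q + 1 := by
    rw [hT, Finset.card_insert_of_notMem, Finset.card_image_of_injective _ (algebraMap F L).injective,
      Finset.card_univ]
    rw [Finset.mem_image]
    rintro ⟨c, -, hc⟩
    exact hcon c hc
  have hne : (X ^ q - X : L[X]) ≠ 0 := FiniteField.X_pow_card_sub_X_ne_zero L hq1
  have hsub : T.val ⊆ (X ^ q - X : L[X]).roots := by
    intro y hy
    rw [mem_roots hne, IsRoot.def, eval_sub, eval_pow, eval_X, sub_eq_zero]
    have hy' : y ∈ T := hy
    rw [hT, Finset.mem_insert, Finset.mem_image] at hy'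
    rcases hy' with rfl | ⟨c, -, rfl⟩
    · exact hx
    · rw [← map_pow, FiniteField.pow_card]
  have h1 := card_le_degree_of_subset_roots hsub
  have h2 : (X ^ q - X : L[X]).natDegree = q := FiniteField.X_pow_card_sub_X_natDegree_eq L hq1
  omega

omit [Fintype L] in
lemma map_comp_pow (f : L[X]) :
    (f.map (FiniteField.frobeniusAlgHom F L : L →+* L)).comp (X ^ Fintype.card F)
      = f ^ Fintype.card F := by
  have h : ((compRingHom (X ^ Fintype.card F : L[X])).comp
      (mapRingHom (FiniteField.frobeniusAlgHom F L : L →+* L)))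
      = (FiniteField.frobeniusAlgHom F L[X] : L[X] →+* L[X]) := by
    apply ringHom_ext
    · intro a
      simp [FiniteField.frobeniusAlgHom_apply]
    · simp [FiniteField.frobeniusAlgHom_apply]
  have := congrArg (fun φ => φ f) h
  simpa [FiniteField.frobeniusAlgHom_apply] using this

/-- Let `g0, g1` be coprime of degree at most `d`, all nonzero members of the `F`-pencil they span
being of degree exactly `d`. Then at most `d (q + 1) - ((q - 1) mod d)` elements of the quadratic
extension `L` are roots of members of the pencil. -/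
theorem pencil {d : ℕ} (hd : 1 ≤ d) (hL : Fintype.card L = Fintype.card F ^ 2) {g0 g1 : L[X]}
    (hg0 : g0.natDegree ≤ d) (hg1 : g1.natDegree ≤ d)
    (hdeg : ∀ c0 c1 : F, ¬ (c0 = 0 ∧ c1 = 0) →
      algebraMap F L c0 * g0.coeff d + algebraMap F L c1 * g1.coeff d ≠ 0)
    (hcop : IsCoprime g0 g1) (S : Finset L)
    (hS : ∀ s ∈ S, ∃ c0 c1 : F, ¬ (c0 = 0 ∧ c1 = 0) ∧
      algebraMap F L c0 * g0.eval s + algebraMap F L c1 * g1.eval s = 0) :
    S.card + (Fintype.card F - 1) % d ≤ d * (Fintype.card F + 1) := by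
  classical
  set q := Fintype.card F with hq
  have hq1 : 1 < q := Fintype.one_lt_card
  have ha0 : g0.coeff d ≠ 0 := by
    have := hdeg 1 0 (by simp)
    simpa using this
  have ha1 : g1.coeff d ≠ 0 := by
    have := hdeg 0 1 (by simp)
    simpa using this
  -- the leading coefficient
  have hlead : g0.coeff d * g1.coeff d ^ q - g1.coeff d * g0.coeff d ^ q ≠ 0 := by
    intro h0
    have h1 : (g1.coeff d / g0.coeff d) ^ q = g1.coeff d / g0.coeff d := by
      rw [div_pow, div_eq_div_iff (pow_ne_zero _ ha0) ha0]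
      linear_combination h0
    obtain ⟨c, hc⟩ := exists_of_pow_card_eq h1
    apply hdeg c (-1) (by
      rintro ⟨-, h⟩
      exact one_ne_zero (neg_eq_zero.mp h))
    rw [hc, map_neg, map_one, div_mul_cancel₀ _ ha0]
    ring
  -- the product polynomial
  set H : L[X] := g0 * g1 ^ q - g1 * g0 ^ q with hH
  have hHdeg : H.natDegree ≤ d * (q + 1) := by
    have h1 : (g0 * g1 ^ q).natDegree ≤ d * (q + 1) := by
      refine natDegree_mul_le.trans ?_
      have h2 : (g1 ^ q).natDegree ≤ q * g1.natDegree := natDegree_pow_le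
      have h3 : q * g1.natDegree ≤ q * d := Nat.mul_le_mul_left _ hg1
      have h4 : d * (q + 1) = d + q * d := by ring
      omega
    have h1' : (g1 * g0 ^ q).natDegree ≤ d * (q + 1) := by
      refine natDegree_mul_le.trans ?_
      have h2 : (g0 ^ q).natDegree ≤ q * g0.natDegree := natDegree_pow_le
      have h3 : q * g0.natDegree ≤ q * d := Nat.mul_le_mul_left _ hg0
      have h4 : d * (q + 1) = d + q * d := by ring
      omega
    exact (natDegree_sub_le _ _).trans (max_le h1 h1')
  have hHcoeff : H.coeff (d + q * d)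
      = g0.coeff d * g1.coeff d ^ q - g1.coeff d * g0.coeff d ^ q := by
    rw [hH, coeff_sub]
    rw [coeff_mul_add_eq_of_natDegree_le hg0
        (natDegree_pow_le.trans (Nat.mul_le_mul_left _ hg1)),
      coeff_mul_add_eq_of_natDegree_le hg1
        (natDegree_pow_le.trans (Nat.mul_le_mul_left _ hg0)),
      coeff_pow_of_natDegree_le hg1, coeff_pow_of_natDegree_le hg0]
  have hHne : H ≠ 0 := by
    intro h0
    apply hlead
    rw [← hHcoeff, h0, coeff_zero]
  have hHroot : ∀ (c0 c1 : F), ¬ (c0 = 0 ∧ c1 = 0) → ∀ s : L,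
      algebraMap F L c0 * g0.eval s + algebraMap F L c1 * g1.eval s = 0 → H.eval s = 0 := by
    intro c0 c1 hc s hs
    have hpow : algebraMap F L c0 * g0.eval s ^ q + algebraMap F L c1 * g1.eval s ^ q = 0 := by
      have := congrArg (FiniteField.frobeniusAlgHom F L) hs
      rw [map_add, map_mul, map_mul, map_zero, AlgHom.commutes, AlgHom.commutes] at this
      simpa [FiniteField.frobeniusAlgHom_apply] using this
    rw [hH, eval_sub, eval_mul, eval_mul, eval_pow, eval_pow]
    by_cases hc1 : c1 = 0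
    · have hc0 : algebraMap F L c0 ≠ 0 := fun h => hc ⟨(map_eq_zero _).mp h, hc1⟩
      rw [hc1, map_zero, zero_mul, add_zero] at hs
      have h0 : g0.eval s = 0 := (mul_eq_zero.mp hs).resolve_left hc0
      rw [h0, zero_mul, zero_pow (by omega), mul_zero, sub_zero]
    · have hc1' : algebraMap F L c1 ≠ 0 := fun h => hc1 ((map_eq_zero _).mp h)
      apply mul_left_cancel₀ hc1'
      linear_combination (g0.eval s) * hpow - (g0.eval s) ^ q * hs
  have hSsub : S.val ⊆ H.roots := by
    intro s hs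
    obtain ⟨c0, c1, hc, hr⟩ := hS s hs
    rw [mem_roots hHne, IsRoot.def]
    exact hHroot _ _ hc s hr
  have hSle : S.val ≤ H.roots := (Multiset.le_iff_subset S.nodup).mpr hSsub
  set P : L[X] := (S.val.map fun a => X - C a).prod with hP
  obtain ⟨N, hN⟩ := (Multiset.prod_X_sub_C_dvd_iff_le_roots hHne S.val).mpr hSle
  rw [← hP] at hN
  have hN0 : N ≠ 0 := by
    rintro rfl
    rw [mul_zero] at hN
    exact hHne hN
  have hPmonic : P.Monic := monic_multiset_prod_of_monic _ _ fun a _ => monic_X_sub_C a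
  have hPdeg : P.natDegree = S.card := by
    rw [hP, natDegree_multiset_prod_X_sub_C_eq_card]
    rfl
  have hNdeg : S.card + N.natDegree ≤ d * (q + 1) := by
    rw [← hPdeg, ← hPmonic.natDegree_mul' hN0, ← hN]
    exact hHdeg
  have hne : (X ^ q ^ 2 - X : L[X]) ≠ 0 := by
    rw [← hL]
    exact FiniteField.X_pow_card_sub_X_ne_zero L Fintype.one_lt_card
  have hle : S.val ≤ (X ^ q ^ 2 - X : L[X]).roots := by
    rw [← hL, FiniteField.roots_X_pow_card_sub_X]
    exact (Multiset.le_iff_subset S.nodup).mpr (fun s _ => Finset.mem_univ s)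
  obtain ⟨W, hW⟩ := (Multiset.prod_X_sub_C_dvd_iff_le_roots hne S.val).mpr hle
  rw [← hP] at hW
  have hHW : H * W = (X ^ q ^ 2 - X) * N := by
    rw [hN, hW]; ring
  -- the conjugate polynomials
  set σ : L →+* L := (FiniteField.frobeniusAlgHom F L : L →+* L) with hσ
  have hσapp : ∀ x, σ x = x ^ q := by
    intro x
    rw [hσ]
    simp [FiniteField.frobeniusAlgHom_apply, hq]
  have hcop' : IsCoprime (g0.map σ) (g1.map σ) := hcop.map (mapRingHom σ)
  have hev : ∀ f : L[X], ((f.map σ).map C).eval (X ^ q : L[X]) = f ^ q := by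
    intro f
    rw [eval_map, ← map_comp_pow (F := F) f]
    rfl
  -- the function v
  have hroot : (((X ^ q - C X) * C N - hh g0 g1 (g0.map σ) (g1.map σ) * C W : L[X][X])).eval
      (X ^ q : L[X]) = 0 := by
    rw [eval_sub, eval_mul, eval_sub, eval_pow, eval_X, eval_C, eval_C, eval_mul, eval_C, hh,
      eval_sub, eval_mul, eval_mul, eval_C, eval_C, hev, hev, ← hH, hHW]
    ring
  obtain ⟨v, hv⟩ := dvd_iff_isRoot.mpr (show IsRoot _ _ from hroot)
  have hvv : hh g0 g1 (g0.map σ) (g1.map σ) ∣ (X - C (X ^ q)) * v - (X ^ q - C X) * C N := by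
    refine ⟨- C W, ?_⟩
    rw [← hv]; ring
  have hfin := curve hd hq1 hg0 hg1 (natDegree_map_le.trans hg0) (natDegree_map_le.trans hg1)
    hcop hcop' (by
      rw [coeff_map, coeff_map, hσapp, hσapp]
      exact hlead) (by
      rw [coeff_map, hσapp]
      exact pow_ne_zero _ ha0) hN0 v hvv
  omega

/-- The version without the coprimality assumption: common roots are counted twice. -/
theorem pencil_gcd {d : ℕ} (hd : 1 ≤ d) (hL : Fintype.card L = Fintype.card F ^ 2) {g0 g1 : L[X]}
    (hg0 : g0.natDegree ≤ d) (hg1 : g1.natDegree ≤ d)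
    (hdeg : ∀ c0 c1 : F, ¬ (c0 = 0 ∧ c1 = 0) →
      algebraMap F L c0 * g0.coeff d + algebraMap F L c1 * g1.coeff d ≠ 0)
    (S K0 : Finset L)
    (hS : ∀ s ∈ S, ¬ (g0.eval s = 0 ∧ g1.eval s = 0) ∧ ∃ c0 c1 : F, ¬ (c0 = 0 ∧ c1 = 0) ∧
      algebraMap F L c0 * g0.eval s + algebraMap F L c1 * g1.eval s = 0)
    (hK0 : ∀ s ∈ K0, g0.eval s = 0 ∧ g1.eval s = 0) :
    S.card + 2 * K0.card + (Fintype.card F - 1) % d ≤ d * (Fintype.card F + 1) := by
  classical
  set q := Fintype.card F with hq
  have hq1 : 1 < q := Fintype.one_lt_card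
  have ha0 : g0.coeff d ≠ 0 := by
    have := hdeg 1 0 (by simp)
    simpa using this
  have hg0ne : g0 ≠ 0 := by
    rintro rfl
    exact ha0 (coeff_zero _)
  set K := EuclideanDomain.gcd g0 g1 with hK
  have hKne : K ≠ 0 := by
    intro h
    exact hg0ne (EuclideanDomain.gcd_eq_zero_iff.mp h).1
  obtain ⟨a0, ha0'⟩ : K ∣ g0 := EuclideanDomain.gcd_dvd_left _ _
  obtain ⟨a1, ha1'⟩ : K ∣ g1 := EuclideanDomain.gcd_dvd_right _ _
  have hbez := EuclideanDomain.gcd_eq_gcd_ab g0 g1
  rw [← hK] at hbez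
  set s0 := EuclideanDomain.gcdA g0 g1
  set s1 := EuclideanDomain.gcdB g0 g1
  have hcop : IsCoprime a0 a1 := by
    refine ⟨s0, s1, ?_⟩
    apply mul_left_cancel₀ hKne
    calc K * (s0 * a0 + s1 * a1) = (K * a0) * s0 + (K * a1) * s1 := by ring
      _ = K := by rw [← ha0', ← ha1', ← hbez]
      _ = K * 1 := (mul_one _).symm
  have ha0ne : a0 ≠ 0 := by
    rintro rfl
    rw [mul_zero] at ha0'
    exact hg0ne ha0'
  set κ := K.natDegree with hκ
  have hdg0 : g0.natDegree = d := le_antisymm hg0 (le_natDegree_of_ne_zero ha0)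
  have hdg0' : κ + a0.natDegree = d := by
    rw [hκ, ← natDegree_mul hKne ha0ne, ← ha0', hdg0]
  have hκd : κ ≤ d := by omega
  have hda0 : a0.natDegree ≤ d - κ := by omega
  have hda1 : a1.natDegree ≤ d - κ := by
    by_cases h : a1 = 0
    · rw [h, natDegree_zero]; omega
    · have : κ + a1.natDegree = g1.natDegree := by
        rw [hκ, ← natDegree_mul hKne h, ← ha1']
      omega
  have hcoef : ∀ a g : L[X], a.natDegree ≤ d - κ → g = K * a →
      g.coeff d = K.leadingCoeff * a.coeff (d - κ) := by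
    intro a g ha hg
    have : κ + (d - κ) = d := by omega
    rw [hg]
    conv_lhs => rw [← this]
    rw [coeff_mul_add_eq_of_natDegree_le (df := κ) (dg := d - κ) (by rw [hκ]) ha]
    rfl
  have hdeg' : ∀ c0 c1 : F, ¬ (c0 = 0 ∧ c1 = 0) →
      algebraMap F L c0 * a0.coeff (d - κ) + algebraMap F L c1 * a1.coeff (d - κ) ≠ 0 := by
    intro c0 c1 hc h0
    apply hdeg c0 c1 hc
    rw [hcoef a0 g0 hda0 ha0', hcoef a1 g1 hda1 ha1']
    linear_combination K.leadingCoeff * h0
  have hKs : ∀ s : L, K.eval s = 0 ↔ (g0.eval s = 0 ∧ g1.eval s = 0) := by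
    intro s
    constructor
    · intro h
      rw [ha0', ha1', eval_mul, eval_mul, h, zero_mul, zero_mul]
      exact ⟨rfl, rfl⟩
    · rintro ⟨h0, h1⟩
      rw [hbez, eval_add, eval_mul, eval_mul, h0, h1, zero_mul, zero_mul, add_zero]
  have hS' : ∀ s ∈ S, ∃ c0 c1 : F, ¬ (c0 = 0 ∧ c1 = 0) ∧
      algebraMap F L c0 * a0.eval s + algebraMap F L c1 * a1.eval s = 0 := by
    intro s hs
    obtain ⟨h1, c0, c1, hc, h2⟩ := hS s hs
    refine ⟨c0, c1, hc, ?_⟩
    have hKs0 : K.eval s ≠ 0 := fun h => h1 ((hKs s).mp h)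
    apply mul_left_cancel₀ hKs0
    rw [ha0', ha1', eval_mul, eval_mul] at h2
    linear_combination h2
  have hK0card : K0.card ≤ κ := by
    apply card_le_degree_of_subset_roots
    intro s hs
    rw [mem_roots hKne, IsRoot.def]
    exact (hKs s).mpr (hK0 s hs)
  have hmod : (q - 1) % d ≤ q - 1 := Nat.mod_le _ _
  rcases Nat.eq_zero_or_pos κ with hκ0 | hκ0
  · have h1 := pencil (F := F) (d := d - κ) (by omega) hL hda0 hda1 hdeg' hcop S hS'
    rw [← hq, hκ0, Nat.sub_zero] at h1
    omega
  · have hScard : S.card ≤ (d - κ) * (q + 1) := by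
      rcases Nat.eq_zero_or_pos (d - κ) with h0 | h0
      · have hSe : S = ∅ := by
          rw [Finset.eq_empty_iff_forall_notMem]
          intro s hs
          obtain ⟨c0, c1, hc, h2⟩ := hS' s hs
          apply hdeg' c0 c1 hc
          have e0 : a0.eval s = a0.coeff (d - κ) := by
            rw [h0] at hda0 ⊢
            rw [eq_C_of_natDegree_le_zero hda0]; simp
          have e1 : a1.eval s = a1.coeff (d - κ) := by
            rw [h0] at hda1 ⊢
            rw [eq_C_of_natDegree_le_zero hda1]; simp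
          rw [← e0, ← e1]
          exact h2
        rw [hSe]; simp
      · have h1 := pencil (F := F) (d := d - κ) h0 hL hda0 hda1 hdeg' hcop S hS'
        rw [← hq] at h1
        omega
    obtain ⟨p, hp⟩ : ∃ p, q = p + 1 := ⟨q - 1, by omega⟩
    obtain ⟨m, hm⟩ : ∃ m, d = m + κ := ⟨d - κ, by omega⟩
    have h2 : d - κ = m := by omega
    rw [h2, hp] at hScard
    rw [hp, Nat.add_sub_cancel] at hmod
    rw [hp, Nat.add_sub_cancel]
    have h3 : p ≤ κ * p := Nat.le_mul_of_pos_left p hκ0
    have h4 : d * (p + 1 + 1) = m * (p + 1 + 1) + κ * p + 2 * κ := by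
      rw [hm]; ring
    omega

end Pool.Agent.Lib_MP_e76747_rs
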