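import Pool.Agent.Lib_MP_e76747_rs.Curve2
import Pool.Agent.Lib_MP_e76747_rs.Form
import Pool.Agent.Lib_MP_e76747_rs.Pencil

/-! # The larger bound for pencils -/

namespace Pool.Agent.Lib_MP_e76747_rs

open Polynomial Polynomial.Bivariate

variable {F L : Type*} [Field F] [Fintype F] [Field L] [Fintype L] [Algebra F L]

omit [Field F] [Fintype F] [Algebra F L] in
lemma prod_univ_X_sub_C [DecidableEq L] :
    ∏ t : L, (X - C t) = (X ^ Fintype.card L - X : L[X]) := by
  have hq : 1 < Fintype.card L := Fintype.one_lt_card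
  have hmon : (X ^ Fintype.card L - X : L[X]).Monic :=
    monic_X_pow_sub (by rw [degree_X]; exact_mod_cast hq)
  have hroots := FiniteField.roots_X_pow_card_sub_X L
  have h1 := prod_multiset_X_sub_C_of_monic_of_roots_card_eq hmon (by
    rw [hroots, FiniteField.X_pow_card_sub_X_natDegree_eq L hq]
    rfl)
  rw [hroots] at h1
  rw [← h1]
  rfl

/-- Let `g0, g1` be coprime of degree at most `d`, all nonzero members of the `F`-pencil they span
being of degree exactly `d`, and let `b = (q - 1) mod d` satisfy `1 ≤ b ≤ d - 2`. Then at most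
`d (q + 1) - (b + 1) (d - b)` elements of the quadratic extension `L` are roots of members of the
pencil. -/
theorem pencil2 {d : ℕ} (hL : Fintype.card L = Fintype.card F ^ 2) {g0 g1 : L[X]}
    (hg0 : g0.natDegree ≤ d) (hg1 : g1.natDegree ≤ d)
    (hdeg : ∀ c0 c1 : F, ¬ (c0 = 0 ∧ c1 = 0) →
      algebraMap F L c0 * g0.coeff d + algebraMap F L c1 * g1.coeff d ≠ 0)
    (hcop : IsCoprime g0 g1) (S : Finset L)
    (hS : ∀ s ∈ S, ∃ c0 c1 : F, ¬ (c0 = 0 ∧ c1 = 0) ∧
      algebraMap F L c0 * g0.eval s + algebraMap F L c1 * g1.eval s = 0)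
    {b : ℕ} (hb : (Fintype.card F - 1) % d = b) (hb1 : 1 ≤ b) (hb2 : b + 2 ≤ d) :
    S.card + (b + 1) * (d - b) ≤ d * (Fintype.card F + 1) := by
  classical
  set q := Fintype.card F with hq
  have hq1 : 1 < q := Fintype.one_lt_card
  have hd : 1 ≤ d := by omega
  have ha0 : g0.coeff d ≠ 0 := by
    have := hdeg 1 0 (by simp)
    simpa using this
  have hlead : g0.coeff d * g1.coeff d ^ q - g1.coeff d * g0.coeff d ^ q ≠ 0 := by
    intro h0
    have h1 : (g1.coeff d / g0.coeff d) ^ q = g1.coeff d / g0.coeff d := by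
      rw [div_pow, div_eq_div_iff (pow_ne_zero _ ha0) ha0]
      linear_combination h0
    obtain ⟨c, hc⟩ := exists_of_pow_card_eq h1
    apply hdeg c (-1) (by
      rintro ⟨-, h⟩
      exact one_ne_zero (neg_eq_zero.mp h))
    rw [hc, map_neg, map_one, div_mul_cancel₀ _ ha0]
    ring
  -- the product polynomial
  set H : L[X] := g0 * g1 ^ q - g1 * g0 ^ q with hH
  have hHdeg : H.natDegree ≤ d * (q + 1) := by
    have h1 : (g0 * g1 ^ q).natDegree ≤ d * (q + 1) := by
      refine natDegree_mul_le.trans ?_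
      have h2 : (g1 ^ q).natDegree ≤ q * g1.natDegree := natDegree_pow_le
      have h3 : q * g1.natDegree ≤ q * d := Nat.mul_le_mul_left _ hg1
      have h4 : d * (q + 1) = d + q * d := by ring
      omega
    have h1' : (g1 * g0 ^ q).natDegree ≤ d * (q + 1) := by
      refine natDegree_mul_le.trans ?_
      have h2 : (g0 ^ q).natDegree ≤ q * g0.natDegree := natDegree_pow_le
      have h3 : q * g0.natDegree ≤ q * d := Nat.mul_le_mul_left _ hg0
      have h4 : d * (q + 1) = d + q * d := by ring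
      omega
    exact (natDegree_sub_le _ _).trans (max_le h1 h1')
  have hHcoeff : H.coeff (d + q * d)
      = g0.coeff d * g1.coeff d ^ q - g1.coeff d * g0.coeff d ^ q := by
    rw [hH, coeff_sub]
    rw [coeff_mul_add_eq_of_natDegree_le hg0
        (natDegree_pow_le.trans (Nat.mul_le_mul_left _ hg1)),
      coeff_mul_add_eq_of_natDegree_le hg1
        (natDegree_pow_le.trans (Nat.mul_le_mul_left _ hg0)),
      coeff_pow_of_natDegree_le hg1, coeff_pow_of_natDegree_le hg0]
  have hHne : H ≠ 0 := by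
    intro h0
    apply hlead
    rw [← hHcoeff, h0, coeff_zero]
  have hHroot : ∀ (c0 c1 : F), ¬ (c0 = 0 ∧ c1 = 0) → ∀ s : L,
      algebraMap F L c0 * g0.eval s + algebraMap F L c1 * g1.eval s = 0 → H.eval s = 0 := by
    intro c0 c1 hc s hs
    have hpow : algebraMap F L c0 * g0.eval s ^ q + algebraMap F L c1 * g1.eval s ^ q = 0 := by
      have := congrArg (FiniteField.frobeniusAlgHom F L) hs
      rw [map_add, map_mul, map_mul, map_zero, AlgHom.commutes, AlgHom.commutes] at this
      simpa [FiniteField.frobeniusAlgHom_apply] using this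
    rw [hH, eval_sub, eval_mul, eval_mul, eval_pow, eval_pow]
    by_cases hc1 : c1 = 0
    · have hc0 : algebraMap F L c0 ≠ 0 := fun h => hc ⟨(map_eq_zero _).mp h, hc1⟩
      rw [hc1, map_zero, zero_mul, add_zero] at hs
      have h0 : g0.eval s = 0 := (mul_eq_zero.mp hs).resolve_left hc0
      rw [h0, zero_mul, zero_pow (by omega), mul_zero, sub_zero]
    · have hc1' : algebraMap F L c1 ≠ 0 := fun h => hc1 ((map_eq_zero _).mp h)
      apply mul_left_cancel₀ hc1'
      linear_combination (g0.eval s) * hpow - (g0.eval s) ^ q * hs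
  -- all roots of `H` in `L`
  set S' : Finset L := Finset.univ.filter fun s => H.eval s = 0 with hS'
  have hSS' : S.card ≤ S'.card := by
    apply Finset.card_le_card
    intro s hs
    obtain ⟨c0, c1, hc, hr⟩ := hS s hs
    rw [hS', Finset.mem_filter]
    exact ⟨Finset.mem_univ _, hHroot _ _ hc s hr⟩
  have hSsub : S'.val ⊆ H.roots := by
    intro s hs
    rw [mem_roots hHne, IsRoot.def]
    exact (Finset.mem_filter.mp hs).2
  have hSle : S'.val ≤ H.roots := (Multiset.le_iff_subset S'.nodup).mpr hSsub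
  set P : L[X] := ∏ t ∈ S', (X - C t) with hP
  obtain ⟨N, hN⟩ : P ∣ H := (Multiset.prod_X_sub_C_dvd_iff_le_roots hHne S'.val).mpr hSle
  have hN0 : N ≠ 0 := by
    rintro rfl
    rw [mul_zero] at hN
    exact hHne hN
  have hPmonic : P.Monic := monic_prod_of_monic _ _ fun a _ => monic_X_sub_C a
  have hPdeg : P.natDegree = S'.card := by
    rw [hP, natDegree_prod_of_monic _ _ (fun u _ => monic_X_sub_C _)]
    simp
  have hNdeg : S'.card + N.natDegree ≤ d * (q + 1) := by
    rw [← hPdeg, ← hPmonic.natDegree_mul' hN0, ← hN]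
    exact hHdeg
  by_contra hcon
  have hlt : N.natDegree < (b + 1) * (d - b) := by omega
  set W : L[X] := ∏ t ∈ S'ᶜ, (X - C t) with hW
  have hPW : P * W = X ^ q ^ 2 - X := by
    rw [hP, hW, ← hL, ← prod_univ_X_sub_C]
    exact Finset.prod_mul_prod_compl S' _
  have hHW : H * W = (X ^ q ^ 2 - X) * N := by
    rw [hN, ← hPW]; ring
  have hNW : IsCoprime N W := by
    rw [hW]
    refine IsCoprime.prod_right fun t ht => ?_
    apply IsCoprime.symm
    rw [(irreducible_X_sub_C t).coprime_iff_not_dvd, dvd_iff_isRoot, IsRoot.def]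
    intro h0
    have h1 : H.eval t = 0 := by rw [hN, eval_mul, h0, mul_zero]
    rw [Finset.mem_compl, hS', Finset.mem_filter] at ht
    exact ht ⟨Finset.mem_univ _, h1⟩
  -- the conjugate polynomials
  set σ : L →+* L := (FiniteField.frobeniusAlgHom F L : L →+* L) with hσ
  have hσapp : ∀ x, σ x = x ^ q := by
    intro x
    rw [hσ]
    simp [FiniteField.frobeniusAlgHom_apply, hq]
  have hσσ : ∀ f : L[X], (f.map σ).map σ = f := by
    intro f
    ext t
    rw [coeff_map, coeff_map, hσapp, hσapp, ← pow_mul, ← sq, ← hL, FiniteField.pow_card]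
  have hcop' : IsCoprime (g0.map σ) (g1.map σ) := hcop.map (mapRingHom σ)
  have hev : ∀ f : L[X], ((f.map σ).map C).eval (X ^ q : L[X]) = f ^ q := by
    intro f
    rw [eval_map, ← map_comp_pow (F := F) f]
    rfl
  have hev' : ∀ f : L[X], (f.map C).eval (X ^ q : L[X]) = (f.map σ) ^ q := by
    intro f
    have := hev (f.map σ)
    rwa [hσσ] at this
  have D : CurveData d g0 g1 (g0.map σ) (g1.map σ) := by
    refine ⟨hd, hg0, hg1, natDegree_map_le.trans hg0, natDegree_map_le.trans hg1, hcop, hcop', ?_,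
      ?_⟩
    · rw [coeff_map, coeff_map, hσapp, hσapp]
      exact hlead
    · rw [coeff_map, hσapp]
      exact pow_ne_zero _ ha0
  set h := hh g0 g1 (g0.map σ) (g1.map σ) with hh_def
  obtain ⟨ρ, hρdeg, hr0, hr1⟩ := D.exists_rho
  rw [← hh_def] at hr0 hr1
  -- the function v
  have hvex : ∀ s : L[X][X], N ∣ s.eval (X ^ q : L[X]) →
      ∃ v : L[X][X], h ∣ (X - C (X ^ q)) * v - (X ^ q - C X) * s := by
    rintro s ⟨t, ht⟩
    have hroot : (((X ^ q - C X) * s - h * C (W * t) : L[X][X])).eval (X ^ q : L[X]) = 0 := by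
      rw [eval_sub, eval_mul, eval_sub, eval_pow, eval_X, eval_C, eval_mul, eval_C, ht, hh_def, hh,
        eval_sub, eval_mul, eval_mul, eval_C, eval_C, hev, hev, ← hH]
      linear_combination -t * hHW
    obtain ⟨v, hv⟩ := dvd_iff_isRoot.mpr (show IsRoot _ _ from hroot)
    exact ⟨v, - C (W * t), by rw [← hv]; ring⟩
  -- divisibility of p by the conjugate of N
  have hNσ0 : N.map σ ≠ 0 := (Polynomial.map_ne_zero_iff σ.injective).mpr hN0
  have hNσdeg : (N.map σ).natDegree = N.natDegree := natDegree_map_eq_of_injective σ.injective N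
  set a := (q - 1) / d with ha
  have hclaim : ∀ (s v : L[X][X]) (p : L[X]),
      h ∣ (X - C (X ^ q)) * v - (X ^ q - C X) * s → h ∣ v * ρ ^ a - p.map C →
      N.map σ ∣ p := by
    intro s v p h1 h2
    have h3 : h ∣ (X - C (X ^ q)) * p.map C - (X ^ q - C X) * (s * ρ ^ a) := by
      have e : (X - C (X ^ q)) * p.map C - (X ^ q - C X) * (s * ρ ^ a)
          = ((X - C (X ^ q)) * v - (X ^ q - C X) * s) * ρ ^ a
            - (X - C (X ^ q)) * (v * ρ ^ a - p.map C) := by ring
      rw [e]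
      exact dvd_sub (h1.mul_right _) (h2.mul_left _)
    have h4 := map_dvd (Bivariate.swap (R := L)) h3
    have hswapu : Bivariate.swap (X - C (X ^ q) : L[X][Y]) = C X - X ^ q := by
      rw [map_sub, Bivariate.swap_Y, Bivariate.swap_C, Polynomial.map_pow, map_X]
    have hswapG : Bivariate.swap (X ^ q - C X : L[X][Y]) = C (X ^ q) - X := by
      rw [map_sub, map_pow, Bivariate.swap_Y, Bivariate.swap_C, map_X, C_pow]
    rw [map_sub, map_mul, map_mul, hswapu, hswapG, Bivariate.swap_map_C, hh_def, swap_hh] at h4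
    have h5 := map_dvd (evalRingHom (X ^ q : L[X])) h4
    simp only [coe_evalRingHom, eval_sub, eval_mul, eval_C, eval_pow, eval_X] at h5
    rw [hev', hev', sub_self, zero_mul, sub_zero] at h5
    have h6 : (X ^ q ^ 2 - X) * N.map σ = H.map σ * W.map σ := by
      rw [← Polynomial.map_mul, hHW, Polynomial.map_mul, Polynomial.map_sub, Polynomial.map_pow,
        map_X]
    have h7 : H.map σ = -((g0.map σ) ^ q * g1.map σ - (g1.map σ) ^ q * g0.map σ) := by
      rw [hH, Polynomial.map_sub, Polynomial.map_mul, Polynomial.map_mul, Polynomial.map_pow,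
        Polynomial.map_pow]
      ring
    have h8 : H.map σ ∣ (X - (X ^ q) ^ q) * p := by
      rw [h7, neg_dvd]; exact h5
    have h9 : (X ^ q ^ 2 - X) * N.map σ ∣ (X ^ q ^ 2 - X) * (p * W.map σ) := by
      rw [h6]
      have e : (X ^ q ^ 2 - X : L[X]) * (p * W.map σ) = -(((X - (X ^ q) ^ q) * p) * W.map σ) := by
        rw [← pow_mul, ← sq]; ring
      rw [e, dvd_neg]
      exact mul_dvd_mul_right h8 _
    have hne : (X ^ q ^ 2 - X : L[X]) ≠ 0 := by
      rw [← hL]
      exact FiniteField.X_pow_card_sub_X_ne_zero L Fintype.one_lt_card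
    have h10 := (mul_dvd_mul_iff_left hne).mp h9
    exact (hNW.map (mapRingHom σ)).dvd_of_dvd_mul_right h10
  have hab : d * a + b = q - 1 := by rw [← hb]; exact Nat.div_add_mod _ _
  -- first step
  have hlow : b * (d - b) ≤ N.natDegree := by
    by_contra hc
    obtain ⟨c, hc0, -, hcN⟩ := exists_relation (m := b) (n := d - b) (e := 0) hN0 q
      (fun _ _ => 0) (by omega)
    obtain ⟨v, hv⟩ := hvex _ hcN
    obtain ⟨E, -, hE, hE'⟩ := D.step hq1 hρdeg hr0 (fm_natDegree c) (fm_swap_natDegree c)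
      (by rw [hb]; omega) hv
    rw [hb, ← ha] at *
    have hE0 : E = 0 := by
      by_contra h0
      have := hE' h0
      omega
    rw [hE0, sub_zero] at hE
    exact D.not_dvd hq1 hr0 hr1 (fm_ne_zero hc0) (fm_swap_natDegree c) (by omega) hv a hE
  -- the polynomial p attached to a form
  have hp : ∀ c : Fin (b + 1) × Fin (d - b) → L, N ∣ (fm c).eval (X ^ q : L[X]) →
      ∃ (v : L[X][X]) (p : L[X]), h ∣ (X - C (X ^ q)) * v - (X ^ q - C X) * fm c ∧
        h ∣ v * ρ ^ a - p.map C ∧ p.natDegree < d := by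
    intro c hcN
    obtain ⟨v, hv⟩ := hvex _ hcN
    obtain ⟨E, hE1, hE, hE'⟩ := D.step hq1 hρdeg hr0 (fm_natDegree c) (fm_swap_natDegree c)
      (by rw [hb]; omega) hv
    rw [← ha] at hE
    by_cases hE0 : E = 0
    · refine ⟨v, 0, hv, ?_, by simpa using (show 0 < d by omega)⟩
      rw [Polynomial.map_zero, ← hE0]
      exact hE
    · have h1 := hE' hE0
      rw [hb] at h1
      obtain ⟨p, hpE⟩ := eq_map_C (E := E) (by omega)
      refine ⟨v, p, hv, by rw [← hpE]; exact hE, ?_⟩
      rw [hpE, natDegree_map_eq_of_injective C_injective] at hE1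
      exact hE1
  have hfin : ∀ (c : Fin (b + 1) × Fin (d - b) → L) (v : L[X][X]), c ≠ 0 →
      h ∣ (X - C (X ^ q)) * v - (X ^ q - C X) * fm c → h ∣ v * ρ ^ a → False := by
    intro c v hc hv hE
    exact D.not_dvd hq1 hr0 hr1 (fm_ne_zero hc) (fm_swap_natDegree c) (by omega) hv a hE
  obtain ⟨c1, hc1, -, hcN1⟩ := exists_relation (m := b + 1) (n := d - b) (e := 0) hN0 q
    (fun _ _ => 0) (by omega)
  obtain ⟨v1, p1, hv1, hp1, hp1d⟩ := hp c1 hcN1
  obtain ⟨e1, he1⟩ := hclaim _ _ _ hv1 hp1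
  have hp10 : p1 ≠ 0 := by
    intro h0
    rw [h0, Polynomial.map_zero, sub_zero] at hp1
    exact hfin c1 v1 hc1 hv1 hp1
  have hNd : N.natDegree < d := by
    have := natDegree_le_of_dvd ⟨e1, he1⟩ hp10
    omega
  -- now b = 1
  have hb' : b = 1 := by
    by_contra hb'
    obtain ⟨b', rfl⟩ : ∃ b', b = b' + 2 := ⟨b - 2, by omega⟩
    obtain ⟨u, hu⟩ : ∃ u, d = b' + 2 + (u + 2) := ⟨d - (b' + 4), by omega⟩
    have e : d - (b' + 2) = u + 2 := by omega
    rw [e] at hlow
    have : (b' + 2) * (u + 2) = b' * u + 2 * b' + 2 * u + 4 := by ring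
    have h0 : 0 ≤ b' * u := Nat.zero_le _
    omega
  subst hb'
  obtain ⟨x0, hx0⟩ : ∃ x0, c1 x0 ≠ 0 := by
    by_contra hc
    push Not at hc
    exact hc1 (funext hc)
  obtain ⟨c2, hc2, hc2x, hcN2⟩ := exists_relation (m := 1 + 1) (n := d - 1) (e := 1) hN0 q
    (fun _ p => if p = x0 then 1 else 0) (by omega)
  have hc2x0 : c2 x0 = 0 := by
    have := hc2x 0
    simpa using this
  obtain ⟨v2, p2, hv2, hp2, hp2d⟩ := hp c2 hcN2
  obtain ⟨e2, he2⟩ := hclaim _ _ _ hv2 hp2
  have hconst : ∀ (p e : L[X]), p.natDegree < d → p = N.map σ * e → ∃ t : L, e = C t := by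
    intro p e hpd hpe
    by_cases he : e = 0
    · exact ⟨0, by rw [he, C_0]⟩
    · have h1 := natDegree_mul hNσ0 he
      rw [← hpe, hNσdeg] at h1
      exact ⟨e.coeff 0, eq_C_of_natDegree_eq_zero (by omega)⟩
  obtain ⟨t1, rfl⟩ := hconst p1 e1 hp1d he1
  obtain ⟨t2, rfl⟩ := hconst p2 e2 hp2d he2
  have ht1 : t1 ≠ 0 := by
    rintro rfl
    apply hp10
    rw [he1, C_0, mul_zero]
  refine hfin (fun p => t2 * c1 p - t1 * c2 p) (C (C t2) * v1 - C (C t1) * v2) ?_ ?_ ?_
  · intro h0
    have h1 := congrFun h0 x0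
    simp only [hc2x0, mul_zero, sub_zero, Pi.zero_apply, mul_eq_zero] at h1
    have ht2 : t2 = 0 := h1.resolve_right hx0
    apply hc2
    ext p
    have h2 := congrFun h0 p
    simp only [ht2, zero_mul, zero_sub, Pi.zero_apply, neg_eq_zero, mul_eq_zero] at h2
    exact h2.resolve_left ht1
  · rw [← fm_lin]
    have e : (X - C (X ^ q)) * (C (C t2) * v1 - C (C t1) * v2)
        - (X ^ q - C X) * (C (C t2) * fm c1 - C (C t1) * fm c2)
        = C (C t2) * ((X - C (X ^ q)) * v1 - (X ^ q - C X) * fm c1)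
          - C (C t1) * ((X - C (X ^ q)) * v2 - (X ^ q - C X) * fm c2) := by ring
    rw [e]
    exact dvd_sub (hv1.mul_left _) (hv2.mul_left _)
  · have e : (C (C t2) * v1 - C (C t1) * v2) * ρ ^ a
        = C (C t2) * (v1 * ρ ^ a - p1.map C) - C (C t1) * (v2 * ρ ^ a - p2.map C) := by
      rw [he1, he2, Polynomial.map_mul, Polynomial.map_mul, map_C, map_C]
      ring
    rw [e]
    exact dvd_sub (hp1.mul_left _) (hp2.mul_left _)

end Pool.Agent.Lib_MP_e76747_rs
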