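import Pool.Agent.Lib_MP_e76747_rs.Dual
import Pool.Agent.Lib_MP_e76747_rs.Pencil

/-! # The lower bound is attained when `r - 1` divides `q` -/

namespace Pool.Agent.Lib_MP_e76747_rs

open Matrix Pool.Agent.Lib_MP_e76747

/-- functions given by binary forms of degree `d` -/
def Hom {L : Type*} [Field L] (d : ℕ) (f : L → L → L) : Prop :=
  ∃ A : Fin (d + 1) → L, ∀ x z, f x z = ∑ k : Fin (d + 1), A k * (x ^ (k : ℕ) * z ^ (d - (k : ℕ)))

section hom

variable {L : Type*} [Field L]

lemma Hom.add {d : ℕ} {f g : L → L → L} (hf : Hom d f) (hg : Hom d g) :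
    Hom d (fun x z => f x z + g x z) := by
  obtain ⟨A, hA⟩ := hf
  obtain ⟨B, hB⟩ := hg
  refine ⟨fun k => A k + B k, fun x z => ?_⟩
  beta_reduce
  rw [hA, hB, ← Finset.sum_add_distrib]
  exact Finset.sum_congr rfl fun k _ => by ring

lemma Hom.smul {d : ℕ} {f : L → L → L} (hf : Hom d f) (c : L) :
    Hom d (fun x z => c * f x z) := by
  obtain ⟨A, hA⟩ := hf
  refine ⟨fun k => c * A k, fun x z => ?_⟩
  beta_reduce
  rw [hA, Finset.mul_sum]
  exact Finset.sum_congr rfl fun k _ => by ring

lemma Hom.mulX {d : ℕ} {f : L → L → L} (hf : Hom d f) : Hom (d + 1) (fun x z => x * f x z) := by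
  obtain ⟨A, hA⟩ := hf
  refine ⟨Fin.cons 0 A, fun x z => ?_⟩
  beta_reduce
  rw [Fin.sum_univ_succ, hA, Finset.mul_sum]
  simp only [Fin.cons_zero, zero_mul, zero_add, Fin.cons_succ, Fin.val_succ]
  refine Finset.sum_congr rfl fun k _ => ?_
  have : d + 1 - ((k : ℕ) + 1) = d - k := by omega
  rw [this]
  ring

lemma Hom.mulZ {d : ℕ} {f : L → L → L} (hf : Hom d f) : Hom (d + 1) (fun x z => z * f x z) := by
  obtain ⟨A, hA⟩ := hf
  refine ⟨Fin.snoc A 0, fun x z => ?_⟩
  beta_reduce
  rw [Fin.sum_univ_castSucc, hA, Finset.mul_sum]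
  simp only [Fin.snoc_last, zero_mul, add_zero, Fin.snoc_castSucc, Fin.val_castSucc]
  refine Finset.sum_congr rfl fun k _ => ?_
  have h3 : (k : ℕ) < d + 1 := k.2
  have : d + 1 - (k : ℕ) = (d - k) + 1 := by omega
  rw [this]
  ring

lemma Hom.const (c : L) : Hom 0 (fun _ _ => c) := ⟨fun _ => c, fun x z => by simp⟩

lemma Hom.linear_mul {d : ℕ} {f : L → L → L} (hf : Hom d f) (α β : L) :
    Hom (d + 1) (fun x z => (α * x + β * z) * f x z) := by
  have h := (hf.mulX.smul α).add (hf.mulZ.smul β)
  obtain ⟨A, hA⟩ := h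
  refine ⟨A, fun x z => ?_⟩
  rw [← hA]; ring

lemma Hom.pow_mul {d : ℕ} {f : L → L → L} (hf : Hom d f) (α β : L) (k : ℕ) :
    Hom (d + k) (fun x z => (α * x + β * z) ^ k * f x z) := by
  induction k with
  | zero => simpa using hf
  | succ k ih =>
    obtain ⟨A, hA⟩ := ih.linear_mul α β
    refine ⟨A, fun x z => ?_⟩
    refine Eq.trans ?_ (hA x z)
    beta_reduce
    rw [pow_succ]; ring

lemma exists_subst (x z x0 : L) (h : ¬ (x = 0 ∧ z = 0)) :
    ∃ α β γ δ : L, α * δ - β * γ ≠ 0 ∧ α * x + β * z = x0 ∧ γ * x + δ * z = 1 := by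
  by_cases hz : z = 0
  · have hx : x ≠ 0 := fun h' => h ⟨h', hz⟩
    refine ⟨x0 / x, 1, 1 / x, 0, ?_, ?_, ?_⟩
    · rw [mul_zero, one_mul, zero_sub]
      exact neg_ne_zero.mpr (one_div_ne_zero hx)
    · rw [hz, mul_zero, add_zero, div_mul_cancel₀ _ hx]
    · rw [hz, mul_zero, add_zero, div_mul_cancel₀ _ hx]
  · refine ⟨1, (x0 - x) / z, 0, 1 / z, ?_, ?_, ?_⟩
    · rw [mul_zero, one_mul, sub_zero]
      exact one_div_ne_zero hz
    · rw [div_mul_cancel₀ _ hz]; ring
    · rw [zero_mul, zero_add, div_mul_cancel₀ _ hz]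

end hom

variable {F L : Type*} [Field F] [Fintype F] [Field L] [Fintype L] [Algebra F L] {l r : ℕ}

/-- every family of coefficients comes from a row vector -/
lemma exists_row (b : Module.Basis (Fin l) F L) (A : Fin r → L) :
    ∃ m : Fin r × Fin l → F, ∀ k, cf b m k = A k := by
  refine ⟨fun p => Algebra.trace F L (A p.1 * b p.2), fun k => ?_⟩
  unfold cf
  rw [LinearEquiv.symm_apply_eq]
  apply b.ext
  intro t
  rw [dualEquiv_apply]
  simp only [LinearMap.sum_apply, LinearMap.smul_apply, Module.Basis.coord_apply,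
    Module.Basis.repr_self, smul_eq_mul]
  rw [Finset.sum_eq_single t]
  · simp
  · intro s _ hs
    rw [Finsupp.single_eq_of_ne hs, mul_zero]
  · intro h; exact absurd (Finset.mem_univ _) h

/-- The binary form with the roots `(u : 1)`, `u ∈ U`. -/
noncomputable def AU (U : Finset F) (x z : L) : L := ∏ u ∈ U, (x - algebraMap F L u * z)

omit [Fintype F] [Fintype L] in
lemma hom_AU (U : Finset F) (α β γ δ : L) :
    Hom U.card (fun x z => AU U (α * x + β * z) (γ * x + δ * z)) := by
  classical
  induction U using Finset.induction_on with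
  | empty =>
    refine ⟨fun _ => 1, fun x z => ?_⟩
    simp [AU]
  | insert a s ha ih =>
    rw [Finset.card_insert_of_notMem ha]
    obtain ⟨A, hA⟩ := ih.linear_mul (α - algebraMap F L a * γ) (β - algebraMap F L a * δ)
    refine ⟨A, fun x z => ?_⟩
    rw [← hA]
    simp only [AU]
    rw [Finset.prod_insert ha]
    ring

omit [Fintype F] [Fintype L] in
/-- the basic pencil of binary forms, after a linear substitution -/
lemma hom_gamma {d : ℕ} (U : Finset F) (hd : U.card = d) (α β γ δ c0 c1 : L) :
    Hom d (fun x z => c0 * AU U (α * x + β * z) (γ * x + δ * z)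
      + c1 * (γ * x + δ * z) ^ d) := by
  subst hd
  have h1 := (hom_AU U α β γ δ).smul c0
  have h2 : Hom (0 + U.card) (fun x z => (γ * x + δ * z) ^ U.card * 1) :=
    (Hom.const 1).pow_mul γ δ U.card
  rw [zero_add] at h2
  obtain ⟨A, hA⟩ := h1.add (h2.smul c1)
  refine ⟨A, fun x z => ?_⟩
  rw [← hA]; ring

omit [Fintype F] [Fintype L] in
lemma AU_mul (U : Finset F) (y w : L) : AU U (y * w) w = AU U y 1 * w ^ U.card := by
  unfold AU
  rw [← Finset.prod_const, ← Finset.prod_mul_distrib]
  exact Finset.prod_congr rfl fun u _ => by ring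

section poly

open Polynomial

lemma card_RR_le (U : Finset F) (hU : 1 ≤ U.card) [DecidableEq L] :
    (Finset.univ.filter fun s : L => (AU U s 1) ^ Fintype.card F + AU U s 1 = 0).card
      ≤ U.card * Fintype.card F := by
  set q := Fintype.card F with hq
  have hq1 : 1 < q := Fintype.one_lt_card
  set A : L[X] := ∏ u ∈ U, (X - C (algebraMap F L u)) with hA
  have hAm : A.Monic := monic_prod_of_monic _ _ (fun u _ => monic_X_sub_C _)
  have hAd : A.natDegree = U.card := by
    rw [hA, natDegree_prod_of_monic _ _ (fun u _ => monic_X_sub_C _)]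
    simp
  have h2 : (A ^ q).natDegree = U.card * q := by rw [hAm.natDegree_pow, hAd, mul_comm]
  have h3 : (A ^ q + A).natDegree = U.card * q := by
    rw [natDegree_add_eq_left_of_natDegree_lt, h2]
    rw [h2, hAd]
    nlinarith
  have hne : A ^ q + A ≠ 0 := by
    intro h
    rw [h, natDegree_zero] at h3
    have : 0 < U.card * q := Nat.mul_pos (by omega) (by omega)
    omega
  have heval : ∀ s : L, (A ^ q + A).eval s = (AU U s 1) ^ q + AU U s 1 := by
    intro s
    simp [hA, AU, eval_prod]
  have hsub : (Finset.univ.filter fun s : L => (AU U s 1) ^ q + AU U s 1 = 0)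
      ⊆ (A ^ q + A).roots.toFinset := by
    intro s hs
    rw [Multiset.mem_toFinset, mem_roots hne, IsRoot.def, heval]
    exact (Finset.mem_filter.mp hs).2
  refine (Finset.card_le_card hsub).trans ((Multiset.toFinset_card_le _).trans ?_)
  rw [← h3]
  exact card_roots' _

end poly

omit [Fintype L] in
lemma AU_conj (p s : ℕ) [Fact p.Prime] [CharP L p] (U : Finset F) (hcard : U.card = p ^ s)
    (hUsub : ∀ t ∈ U, ∀ u ∈ U, t - u ∈ U) (y : L) (t : F) (ht : t ∈ U)
    (hy : y + y ^ Fintype.card F = algebraMap F L t) :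
    (AU U y 1) ^ Fintype.card F + AU U y 1 = 0 := by
  have h1 : (AU U y 1) ^ Fintype.card F = ∏ u ∈ U, ((-1) * (y - algebraMap F L u * 1)) := by
    unfold AU
    rw [← Finset.prod_pow]
    refine Finset.prod_nbij' (fun u => t - u) (fun u => t - u) (fun u hu => hUsub t ht u hu)
      (fun u hu => hUsub t ht u hu) (fun u _ => by simp) (fun u _ => by simp) ?_
    intro u hu
    have hfr : (y - algebraMap F L u * 1) ^ Fintype.card F
        = y ^ Fintype.card F - algebraMap F L u := by
      have := map_sub (FiniteField.frobeniusAlgHom F L) y (algebraMap F L u)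
      simpa [FiniteField.frobeniusAlgHom_apply] using this
    rw [hfr, map_sub]
    linear_combination hy
  have h2 : (-1 : L) ^ U.card = -1 := by rw [hcard]; exact neg_one_pow_char_pow ..
  rw [h1, Finset.prod_mul_distrib, Finset.prod_const, h2]
  unfold AU
  ring

lemma card_trace_mem (hL : Fintype.card L = Fintype.card F ^ 2) [DecidableEq F] (U : Finset F) :
    (Finset.univ.filter fun s : L => Algebra.trace F L s ∈ U).card
      = U.card * Fintype.card F := by
  classical
  set q := Fintype.card F with hq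
  have hq1 : 1 < q := Fintype.one_lt_card
  have hfib : ∀ t : F, (Finset.univ.filter fun s : L => Algebra.trace F L s = t).card
      = (Finset.univ.filter fun s : L => Algebra.trace F L s = 0).card := by
    intro t
    obtain ⟨s0, hs0⟩ := Algebra.trace_surjective F L t
    refine Finset.card_bij' (fun s _ => s - s0) (fun s _ => s + s0) ?_ ?_ ?_ ?_
    · intro s hs
      rw [Finset.mem_filter] at hs ⊢
      refine ⟨Finset.mem_univ _, ?_⟩
      rw [map_sub, hs.2, hs0, sub_self]
    · intro s hs
      rw [Finset.mem_filter] at hs ⊢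
      refine ⟨Finset.mem_univ _, ?_⟩
      rw [map_add, hs.2, hs0, zero_add]
    · intro s _; ring
    · intro s _; ring
  set c := (Finset.univ.filter fun s : L => Algebra.trace F L s = 0).card with hc
  have htot : Fintype.card L = ∑ t : F, (Finset.univ.filter fun s : L =>
      Algebra.trace F L s = t).card := by
    rw [← Finset.card_univ]
    exact Finset.card_eq_sum_card_fiberwise (fun s _ => Finset.mem_univ _)
  rw [Finset.sum_congr rfl (fun t _ => hfib t), Finset.sum_const, Finset.card_univ, smul_eq_mul,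
    ← hq, hL, sq] at htot
  have hcq : c = q := (Nat.eq_of_mul_eq_mul_left (by omega) htot).symm
  have h2 : (Finset.univ.filter fun s : L => Algebra.trace F L s ∈ U).card
      = ∑ t ∈ U, ((Finset.univ.filter fun s : L => Algebra.trace F L s ∈ U).filter
        fun s => Algebra.trace F L s = t).card :=
    Finset.card_eq_sum_card_fiberwise (fun s hs => (Finset.mem_filter.mp hs).2)
  rw [h2]
  have h3 : ∀ t ∈ U, ((Finset.univ.filter fun s : L => Algebra.trace F L s ∈ U).filter
      fun s => Algebra.trace F L s = t).card = q := by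
    intro t ht
    rw [← hcq, ← hfib t]
    congr 1
    ext s
    simp only [Finset.mem_filter, Finset.mem_univ, true_and]
    constructor
    · exact fun h => h.2
    · intro h
      exact ⟨by rw [h]; exact ht, h⟩
  rw [Finset.sum_congr rfl h3, Finset.sum_const, smul_eq_mul]

lemma card_RR (b : Module.Basis (Fin 2) F L) (p s : ℕ) [Fact p.Prime] [CharP L p]
    (U : Finset F) (hcard : U.card = p ^ s)
    (hUsub : ∀ t ∈ U, ∀ u ∈ U, t - u ∈ U) [DecidableEq L] :
    (Finset.univ.filter fun s : L => (AU U s 1) ^ Fintype.card F + AU U s 1 = 0).card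
      = U.card * Fintype.card F := by
  classical
  have hp : p.Prime := Fact.out
  have hL : Fintype.card L = Fintype.card F ^ 2 := by
    have := Module.card_eq_pow_finrank (K := F) (V := L)
    rw [this, Module.finrank_eq_card_basis b, Fintype.card_fin]
  have hU1 : 1 ≤ U.card := by
    rw [hcard]
    exact Nat.pos_of_ne_zero (pow_ne_zero _ hp.ne_zero)
  apply le_antisymm (card_RR_le U hU1)
  rw [← card_trace_mem (L := L) hL U]
  apply Finset.card_le_card
  intro y hy
  rw [Finset.mem_filter] at hy ⊢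
  refine ⟨Finset.mem_univ _, ?_⟩
  apply AU_conj p s U hcard hUsub y _ hy.2
  rw [FiniteField.algebraMap_trace_eq_sum_pow, Module.finrank_eq_card_basis b, Fintype.card_fin,
    Finset.sum_range_succ, Finset.sum_range_one, pow_zero, pow_one, pow_one,
    Nat.card_eq_fintype_card]

lemma exists_U (F : Type*) [Field F] [Fintype F] (p s : ℕ) [Fact p.Prime]
    (h : p ^ s ∣ Fintype.card F) :
    ∃ U : Finset F, U.card = p ^ s ∧ ∀ t ∈ U, ∀ u ∈ U, t - u ∈ U := by
  classical
  obtain ⟨K, hK⟩ := Sylow.exists_subgroup_card_pow_prime (G := Multiplicative F) p (n := s)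
    (by rw [Nat.card_eq_fintype_card]; simpa using h)
  refine ⟨Finset.univ.filter fun u : F => Multiplicative.ofAdd u ∈ K, ?_, ?_⟩
  · rw [← hK, Nat.card_eq_fintype_card, Fintype.card_subtype]
    apply Finset.card_bij (fun u _ => Multiplicative.ofAdd u)
    · intro u hu
      rw [Finset.mem_filter] at hu ⊢
      exact ⟨Finset.mem_univ _, hu.2⟩
    · intro u _ v _ huv
      exact Multiplicative.ofAdd.injective huv
    · intro w hw
      rw [Finset.mem_filter] at hw
      refine ⟨Multiplicative.toAdd w, ?_, ofAdd_toAdd w⟩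
      rw [Finset.mem_filter]
      exact ⟨Finset.mem_univ _, hw.2⟩
  · intro t ht u hu
    rw [Finset.mem_filter] at ht hu ⊢
    refine ⟨Finset.mem_univ _, ?_⟩
    rw [ofAdd_sub]
    exact K.div_mem ht.2 hu.2

end Pool.Agent.Lib_MP_e76747_rs
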