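import Pool.Agent.Lib_MP_e76747_rs.Sharp

/-! # The full-length Reed-Solomon code when `r - 1` divides `q` or `q + 1` -/

namespace Pool.Agent.Lib_MP_e76747_rs

open Matrix Pool.Agent.Lib_MP_e76747

variable {F L : Type*} [Field F] [Fintype F] [Field L] [Fintype L] [Algebra F L]

lemma exists_tau (hL : Fintype.card L = Fintype.card F ^ 2) :
    ∃ τ : L, τ ≠ 0 ∧ τ ^ Fintype.card F = -τ := by
  classical
  set q := Fintype.card F with hq
  have hq1 : 1 < q := Fintype.one_lt_card
  obtain ⟨w, hw⟩ : ∃ w : L, w ^ q ≠ w := by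
    by_contra hcon
    push Not at hcon
    have hsurj : Function.Surjective (algebraMap F L) := fun x =>
      exists_of_pow_card_eq (hcon x)
    have h1 := Fintype.card_le_of_surjective _ hsurj
    rw [hL, ← hq] at h1
    have : q * 1 < q * q := Nat.mul_lt_mul_of_pos_left hq1 (by omega)
    rw [sq] at h1
    omega
  refine ⟨w - w ^ q, sub_ne_zero.mpr (Ne.symm hw), ?_⟩
  have h2 : (w - w ^ q) ^ q = w ^ q - (w ^ q) ^ q := by
    have := map_sub (FiniteField.frobeniusAlgHom F L) w (w ^ q)
    simpa [FiniteField.frobeniusAlgHom_apply] using this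
  have h3 : (w ^ q) ^ q = w := by
    rw [← pow_mul, ← sq, ← hL]
    exact FiniteField.pow_card w
  rw [h2, h3]
  ring

/-- An explicit pencil gives an upper bound, for full length. -/
theorem rs_upper {d n : ℕ} (hd1 : 1 ≤ d)
    (b : Module.Basis (Fin 2) F L) (hn : n = Fintype.card F ^ 2 + 1) (x z : Fin n → L)
    (hP : ∀ i j, i ≠ j → x i * z j ≠ x j * z i)
    (T : Fin n → Matrix (Fin 2) (Fin 2) F) (hT : ∀ j, IsUnit (T j))
    (H : Fin n → Matrix (Fin (d + 1) × Fin 2) (Fin 2) F)
    (hH : ∀ j, H j = rsBlock b (d + 1) (x j) (z j) * T j) (i : Fin n)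
    (hi : ¬ (x i = 0 ∧ z i = 0)) (f0 f1 : L → L → L)
    (hf0 : ∀ α β γ δ : L, Hom d (fun x z => f0 (α * x + β * z) (γ * x + δ * z)))
    (hf1 : ∀ α β γ δ : L, Hom d (fun x z => f1 (α * x + β * z) (γ * x + δ * z)))
    (hh0 : ∀ y w, f0 (y * w) w = f0 y 1 * w ^ d) (hh1 : ∀ y w, f1 (y * w) w = f1 y 1 * w ^ d)
    (hi0 : ∀ w, f0 w 0 = f0 1 0 * w ^ d) (hi1 : ∀ w, f1 w 0 = f1 1 0 * w ^ d)
    (S' : Finset (Option L)) (x0 : L)
    (hx0 : ∀ v0 v1 : F, algebraMap F L v0 * f0 x0 1 + algebraMap F L v1 * f1 x0 1 = 0 →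
      v0 = 0 ∧ v1 = 0)
    (hS1 : ∀ y, some y ∈ S' → ∃ v0 v1 : F, ¬ (v0 = 0 ∧ v1 = 0) ∧
      algebraMap F L v0 * f0 y 1 + algebraMap F L v1 * f1 y 1 = 0)
    (hS2 : none ∈ S' → ∃ v0 v1 : F, ¬ (v0 = 0 ∧ v1 = 0) ∧
      algebraMap F L v0 * f0 1 0 + algebraMap F L v1 * f1 1 0 = 0) :
    ∃ M, IsRepair H i M ∧ BW H i M + S'.card ≤ 2 * (n - 1) := by
  classical
  set q := Fintype.card F with hq
  have hq1 : 1 < q := Fintype.one_lt_card
  have hL : Fintype.card L = q ^ 2 := by
    have := Module.card_eq_pow_finrank (K := F) (V := L)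
    rw [this, Module.finrank_eq_card_basis b, Fintype.card_fin]
  obtain ⟨α, β, γ, δ, hdet, hα, hγ⟩ := exists_subst (x i) (z i) x0 hi
  -- the two rows
  obtain ⟨A0, hA0⟩ := hf0 α β γ δ
  obtain ⟨A1, hA1⟩ := hf1 α β γ δ
  obtain ⟨m0, hm0⟩ := exists_row b A0
  obtain ⟨m1, hm1⟩ := exists_row b A1
  set M : Matrix (Fin 2) (Fin (d + 1) × Fin 2) F := Matrix.of ![m0, m1] with hM
  have hvM : ∀ v : Fin 2 → F, v ᵥ* M = v 0 • m0 + v 1 • m1 := by
    intro v
    ext p
    simp [Matrix.vecMul, dotProduct, Fin.sum_univ_two, hM]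
  have hG : ∀ (v : Fin 2 → F) (X Z : L), G b (v ᵥ* M) X Z
      = algebraMap F L (v 0) * f0 (α * X + β * Z) (γ * X + δ * Z)
        + algebraMap F L (v 1) * f1 (α * X + β * Z) (γ * X + δ * Z) := by
    intro v X Z
    rw [hvM, G_comb]
    have h0 : G b m0 X Z = f0 (α * X + β * Z) (γ * X + δ * Z) := by
      refine Eq.trans ?_ (hA0 X Z).symm
      unfold G
      refine Finset.sum_congr rfl fun t _ => ?_
      rw [hm0]
      rfl
    have h1 : G b m1 X Z = f1 (α * X + β * Z) (γ * X + δ * Z) := by
      refine Eq.trans ?_ (hA1 X Z).symm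
      unfold G
      refine Finset.sum_congr rfl fun t _ => ?_
      rw [hm1]
      rfl
    rw [h0, h1]
  have hT0 : ∀ v : Fin 2 → F, ∀ j, (v ᵥ* (M * H j) = 0 ↔ G b (v ᵥ* M) (x j) (z j) = 0) := by
    intro v j
    have e0 : v ᵥ* (M * H j) = ((v ᵥ* M) ᵥ* rsBlock b (d + 1) (x j) (z j)) ᵥ* T j := by
      rw [Matrix.vecMul_vecMul, Matrix.vecMul_vecMul, hH]
    rw [e0, ← vecMul_rsBlock_eq_zero_iff]
    constructor
    · intro h
      have hinj := Matrix.vecMul_injective_of_isUnit (hT j)
      apply hinj
      simpa using h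
    · intro h
      rw [h, Matrix.zero_vecMul]
  -- repair matrix
  have hrep : IsRepair H i M := by
    unfold IsRepair
    rw [← Matrix.vecMul_injective_iff_isUnit]
    have key : ∀ v : Fin 2 → F, v ᵥ* (M * H i) = 0 → v = 0 := by
      intro v hv
      rw [hT0, hG, hα, hγ] at hv
      obtain ⟨hv0, hv1⟩ := hx0 _ _ hv
      ext t
      fin_cases t
      · exact hv0
      · exact hv1
    intro v v' hvv
    have h1 : (v - v') ᵥ* (M * H i) = 0 := by
      rw [Matrix.sub_vecMul]
      exact sub_eq_zero.mpr hvv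
    exact sub_eq_zero.mp (key _ h1)
  refine ⟨M, hrep, ?_⟩
  -- classes of the nodes
  let X' : Fin n → L := fun j => α * x j + β * z j
  let Z' : Fin n → L := fun j => γ * x j + δ * z j
  let cls : Fin n → Option L := fun j => if Z' j = 0 then none else some (X' j / Z' j)
  have hcross : ∀ j j', X' j * Z' j' = X' j' * Z' j → j = j' := by
    intro j j' h
    by_contra hne
    apply hP j j' hne
    apply mul_left_cancel₀ hdet
    simp only [X', Z'] at h
    linear_combination h
  have hinj : Function.Injective cls := by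
    intro j j' h
    apply hcross
    simp only [cls] at h
    split_ifs at h with h1 h2 h2
    · rw [h1, h2, mul_zero, mul_zero]
    · have h3 := Option.some.inj h
      rw [div_eq_div_iff h1 h2] at h3
      exact h3
  have hbij : Function.Bijective cls := by
    rw [Fintype.bijective_iff_injective_and_card]
    refine ⟨hinj, ?_⟩
    rw [Fintype.card_fin, Fintype.card_option, hL, hn]
  let e := Equiv.ofBijective cls hbij
  set A := Finset.univ.filter fun j => cls j ∈ S' with hA
  have hAcard : A.card = S'.card := by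
    have h1 : A = S'.map e.symm.toEmbedding := by
      ext j
      rw [hA, Finset.mem_filter, Finset.mem_map]
      constructor
      · rintro ⟨-, h⟩
        exact ⟨cls j, h, e.symm_apply_apply j⟩
      · rintro ⟨y, hy, rfl⟩
        refine ⟨Finset.mem_univ _, ?_⟩
        have : cls (e.symm y) = y := e.apply_symm_apply y
        change cls (e.symm y) ∈ S'
        rw [this]
        exact hy
    rw [h1, Finset.card_map]
  have hiA : i ∉ A := by
    intro h
    have h1 := (Finset.mem_filter.mp h).2
    have h2 : cls i = some x0 := by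
      simp only [cls, X', Z']
      rw [hα, hγ, if_neg one_ne_zero, div_one]
    rw [h2] at h1
    obtain ⟨v0, v1, hv, hv'⟩ := hS1 _ h1
    exact hv (hx0 v0 v1 hv')
  have hrank2 : ∀ j, (M * H j).rank ≤ 2 := by
    intro j
    simpa using Matrix.rank_le_width (M * H j)
  have hrank1 : ∀ j ∈ A, (M * H j).rank ≤ 1 := by
    intro j hj
    have h1 := (Finset.mem_filter.mp hj).2
    obtain ⟨v, hv0, hv⟩ : ∃ v : Fin 2 → F, v ≠ 0 ∧ v ᵥ* (M * H j) = 0 := by
      by_cases hz : Z' j = 0
      · have h2 : cls j = none := by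
          simp only [cls]
          rw [if_pos hz]
        rw [h2] at h1
        obtain ⟨v0, v1, hv, hv'⟩ := hS2 h1
        refine ⟨![v0, v1], ?_, ?_⟩
        · intro h
          apply hv
          have e0 := congrFun h 0
          have e1 := congrFun h 1
          simp at e0 e1
          exact ⟨e0, e1⟩
        · rw [hT0, hG]
          have e2 : γ * x j + δ * z j = 0 := hz
          rw [e2, hi0, hi1]
          simp only [Matrix.cons_val_zero, Matrix.cons_val_one]
          linear_combination ((α * x j + β * z j) ^ d) * hv'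
      · have h2 : cls j = some (X' j / Z' j) := by
          simp only [cls]
          rw [if_neg hz]
        rw [h2] at h1
        obtain ⟨v0, v1, hv, hv'⟩ := hS1 _ h1
        refine ⟨![v0, v1], ?_, ?_⟩
        · intro h
          apply hv
          have e0 := congrFun h 0
          have e1 := congrFun h 1
          simp at e0 e1
          exact ⟨e0, e1⟩
        · rw [hT0, hG]
          have hX : X' j = (X' j / Z' j) * Z' j := (div_mul_cancel₀ _ hz).symm
          have e1 : α * x j + β * z j = (X' j / Z' j) * Z' j := hX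
          have e2 : γ * x j + δ * z j = Z' j := rfl
          rw [e1, e2, hh0, hh1]
          simp only [Matrix.cons_val_zero, Matrix.cons_val_one]
          linear_combination (Z' j ^ d) * hv'
    by_contra hcon
    have h2 : (M * H j).rank = 2 := by
      have := hrank2 j
      omega
    have h3 := card_vecMul_eq_zero (M * H j)
    rw [h2, Nat.sub_self, pow_zero] at h3
    have h4 : ({0, v} : Finset (Fin 2 → F)) ⊆
        Finset.univ.filter fun v : Fin 2 → F => v ᵥ* (M * H j) = 0 := by
      intro w hw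
      rw [Finset.mem_insert, Finset.mem_singleton] at hw
      rw [Finset.mem_filter]
      refine ⟨Finset.mem_univ _, ?_⟩
      rcases hw with rfl | rfl
      · simp
      · exact hv
    have h5 := Finset.card_le_card h4
    rw [h3, Finset.card_pair (Ne.symm hv0)] at h5
    omega
  have hsum : ∑ j ∈ Finset.univ.erase i, ((M * H j).rank + if j ∈ A then 1 else 0)
      ≤ ∑ _j ∈ Finset.univ.erase i, 2 := by
    refine Finset.sum_le_sum fun j _ => ?_
    by_cases hj : j ∈ A
    · rw [if_pos hj]
      have := hrank1 j hj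
      omega
    · rw [if_neg hj]
      exact hrank2 j
  rw [Finset.sum_add_distrib, Finset.sum_const, Finset.card_erase_of_mem (Finset.mem_univ _),
    Finset.card_univ, Fintype.card_fin, smul_eq_mul, ← Finset.card_filter] at hsum
  have hfA : ((Finset.univ.erase i).filter fun j => j ∈ A) = A := by
    ext j
    rw [Finset.mem_filter, Finset.mem_erase]
    constructor
    · exact fun h => h.2
    · intro h
      refine ⟨⟨?_, Finset.mem_univ _⟩, h⟩
      rintro rfl
      exact hiA h
  rw [hfA, hAcard] at hsum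
  unfold BW
  omega

/-- The full-length code when `r - 1` divides `q`. -/
theorem rs_sharp {d n : ℕ} (hd1 : 1 ≤ d) (hdq : d < Fintype.card F) (hqd : d ∣ Fintype.card F)
    (b : Module.Basis (Fin 2) F L) (hn : n = Fintype.card F ^ 2 + 1) (x z : Fin n → L)
    (hP : ∀ i j, i ≠ j → x i * z j ≠ x j * z i)
    (T : Fin n → Matrix (Fin 2) (Fin 2) F) (hT : ∀ j, IsUnit (T j))
    (H : Fin n → Matrix (Fin (d + 1) × Fin 2) (Fin 2) F)
    (hH : ∀ j, H j = rsBlock b (d + 1) (x j) (z j) * T j) (i : Fin n)
    (hi : ¬ (x i = 0 ∧ z i = 0)) :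
    ∃ M, IsRepair H i M ∧ BW H i M + (d * Fintype.card F + 1) ≤ 2 * (n - 1) := by
  classical
  set q := Fintype.card F with hq
  have hq1 : 1 < q := Fintype.one_lt_card
  have hL : Fintype.card L = q ^ 2 := by
    have := Module.card_eq_pow_finrank (K := F) (V := L)
    rw [this, Module.finrank_eq_card_basis b, Fintype.card_fin]
  -- characteristic
  obtain ⟨p, hpF⟩ := CharP.exists F
  obtain ⟨m, hp, hpm⟩ := FiniteField.card F p
  haveI : Fact p.Prime := ⟨hp⟩
  haveI : CharP L p := charP_of_injective_algebraMap (algebraMap F L).injective p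
  obtain ⟨s, -, hs⟩ : ∃ s ≤ (m : ℕ), d = p ^ s := by
    apply (Nat.dvd_prime_pow hp).mp
    rw [← hpm, ← hq]
    exact hqd
  obtain ⟨U, hUcard, hUsub⟩ := exists_U F p s (by rw [← hs, ← hq]; exact hqd)
  have hrootcard := card_RR (L := L) b p s U hUcard hUsub
  rw [hUcard, ← hs, ← hq] at hrootcard
  have hUd : U.card = d := by rw [hUcard, hs]
  set R := Finset.univ.filter fun s : L => (AU U s 1) ^ q + AU U s 1 = 0 with hR
  obtain ⟨τ, hτ0, hτ⟩ := exists_tau (F := F) hL
  rw [← hq] at hτ
  have hmemR : ∀ y : L, y ∈ R ↔ (AU U y 1) ^ q + AU U y 1 = 0 := by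
    intro y
    rw [hR, Finset.mem_filter]
    simp
  -- a point outside
  obtain ⟨x0, hx0⟩ : ∃ x0 : L, x0 ∉ R := by
    by_contra hcon
    push Not at hcon
    have h1 : R = Finset.univ := Finset.eq_univ_of_forall hcon
    rw [h1, Finset.card_univ, hL, sq] at hrootcard
    have : d * q < q * q := Nat.mul_lt_mul_of_pos_right hdq (by omega)
    omega
  have hcard : (insert none (R.image some) : Finset (Option L)).card = d * q + 1 := by
    rw [Finset.card_insert_of_notMem (by simp),
      Finset.card_image_of_injective _ (Option.some_injective L), hrootcard]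
  rw [← hcard]
  refine rs_upper hd1 b hn x z hP T hT H hH i hi (fun X Z => AU U X Z) (fun _ Z => τ * Z ^ d)
    ?_ ?_ ?_ ?_ ?_ ?_ _ x0 ?_ ?_ ?_
  · intro α β γ δ
    obtain ⟨A, hA⟩ := hom_gamma (d := d) U hUd α β γ δ 1 0
    refine ⟨A, fun x z => ?_⟩
    rw [← hA]; ring
  · intro α β γ δ
    obtain ⟨A, hA⟩ := hom_gamma (d := d) U hUd α β γ δ 0 τ
    refine ⟨A, fun x z => ?_⟩
    rw [← hA]; ring
  · intro y w
    rw [AU_mul, hUd]
  · intro y w
    ring
  · intro w
    have h1 : AU U w 0 = w ^ U.card := by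
      unfold AU
      simp
    have h2 : AU U (1 : L) 0 = 1 := by
      unfold AU
      simp
    rw [h1, h2, hUd, one_mul]
  · intro w
    rw [zero_pow (by omega : d ≠ 0)]
    ring
  · intro v0 v1 hv
    have hv0 : v0 = 0 := by
      by_contra hne
      have hne' : algebraMap F L v0 ≠ 0 := fun h => hne ((map_eq_zero _).mp h)
      apply hx0
      rw [hmemR]
      have h1 : AU U x0 1 = algebraMap F L (-v1 / v0) * τ := by
        rw [map_div₀, map_neg, div_mul_eq_mul_div, eq_div_iff hne']
        simp only [one_pow] at hv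
        linear_combination hv
      rw [h1, mul_pow, hτ, ← map_pow, FiniteField.pow_card]
      ring
    refine ⟨hv0, ?_⟩
    rw [hv0, map_zero, zero_mul, zero_add, one_pow, mul_one] at hv
    rcases mul_eq_zero.mp hv with h | h
    · exact (map_eq_zero _).mp h
    · exact absurd h hτ0
  · intro y hy
    rw [Finset.mem_insert, Finset.mem_image] at hy
    rcases hy with hy | ⟨y', hy, hy'⟩
    · exact absurd hy (by simp)
    rw [Option.some.inj hy', hmemR] at hy
    have hc : (AU U y 1 / τ) ^ q = AU U y 1 / τ := by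
      rw [div_pow, hτ, div_eq_div_iff (neg_ne_zero.mpr hτ0) hτ0]
      linear_combination τ * hy
    obtain ⟨c, hc'⟩ := exists_of_pow_card_eq hc
    refine ⟨1, -c, fun h => one_ne_zero h.1, ?_⟩
    have hyc : AU U y 1 = algebraMap F L c * τ := by
      rw [hc', div_mul_cancel₀ _ hτ0]
    rw [hyc, map_one, map_neg, one_pow]
    ring
  · intro _
    refine ⟨0, 1, fun h => one_ne_zero h.2, ?_⟩
    rw [zero_pow (by omega : d ≠ 0)]
    simp

omit [Field F] [Fintype F] [Algebra F L] in
lemma card_roots_of_dvd [DecidableEq L] {P : Polynomial L}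
    (hdvd : P ∣ Polynomial.X ^ Fintype.card L - Polynomial.X) :
    (Finset.univ.filter fun s : L => P.eval s = 0).card = P.natDegree := by
  open Polynomial in
  have hne : (X ^ Fintype.card L - X : L[X]) ≠ 0 :=
    FiniteField.X_pow_card_sub_X_ne_zero L Fintype.one_lt_card
  obtain ⟨W, hW⟩ := hdvd
  have hP0 : P ≠ 0 := by
    rintro rfl
    rw [zero_mul] at hW
    exact hne hW
  have hW0 : W ≠ 0 := by
    rintro rfl
    rw [mul_zero] at hW
    exact hne hW
  have hroots : P.roots + W.roots = Finset.univ.val := by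
    rw [← Polynomial.roots_mul (mul_ne_zero hP0 hW0), ← hW]
    exact FiniteField.roots_X_pow_card_sub_X L
  have hdeg : P.natDegree + W.natDegree = Fintype.card L := by
    rw [← Polynomial.natDegree_mul hP0 hW0, ← hW]
    exact FiniteField.X_pow_card_sub_X_natDegree_eq L Fintype.one_lt_card
  have hc := congrArg Multiset.card hroots
  rw [Multiset.card_add] at hc
  have hu : Multiset.card (Finset.univ : Finset L).val = Fintype.card L := rfl
  rw [hu] at hc
  have h1 := Polynomial.card_roots' P
  have h2 := Polynomial.card_roots' W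
  have hnd : P.roots.Nodup := by
    have : (Finset.univ : Finset L).val.Nodup := Finset.nodup _
    rw [← hroots] at this
    exact (Multiset.nodup_add.mp this).1
  have hfilter : (Finset.univ.filter fun s : L => P.eval s = 0) = P.roots.toFinset := by
    ext s
    rw [Finset.mem_filter, Multiset.mem_toFinset, Polynomial.mem_roots hP0, Polynomial.IsRoot.def]
    simp
  rw [hfilter, Multiset.toFinset_card_of_nodup hnd]
  omega

/-- The full-length code when `r - 1` divides `q + 1`. -/
theorem rs_sharp2 {d n : ℕ} (hd1 : 1 ≤ d) (hdq : d < Fintype.card F)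
    (hqd : d ∣ Fintype.card F + 1)
    (b : Module.Basis (Fin 2) F L) (hn : n = Fintype.card F ^ 2 + 1) (x z : Fin n → L)
    (hP : ∀ i j, i ≠ j → x i * z j ≠ x j * z i)
    (T : Fin n → Matrix (Fin 2) (Fin 2) F) (hT : ∀ j, IsUnit (T j))
    (H : Fin n → Matrix (Fin (d + 1) × Fin 2) (Fin 2) F)
    (hH : ∀ j, H j = rsBlock b (d + 1) (x j) (z j) * T j) (i : Fin n)
    (hi : ¬ (x i = 0 ∧ z i = 0)) :
    ∃ M, IsRepair H i M ∧ BW H i M + (d * (Fintype.card F - 1) + 2) ≤ 2 * (n - 1) := by
  classical
  set q := Fintype.card F with hq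
  have hq1 : 1 < q := Fintype.one_lt_card
  have hL : Fintype.card L = q ^ 2 := by
    have := Module.card_eq_pow_finrank (K := F) (V := L)
    rw [this, Module.finrank_eq_card_basis b, Fintype.card_fin]
  obtain ⟨e, he⟩ := hqd
  set m := d * (q - 1) with hm
  have hm0 : m ≠ 0 := (Nat.mul_pos (by omega) (by omega)).ne'
  have hme : m * e + 1 = q ^ 2 := by
    obtain ⟨q', hq'⟩ : ∃ q', q = q' + 1 := ⟨q - 1, by omega⟩
    rw [hm, hq', Nat.add_sub_cancel]
    rw [hq'] at he
    have : d * q' * e = q' * (d * e) := by ring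
    rw [this, ← he]
    ring
  set R := Finset.univ.filter fun s : L =>
    (Polynomial.X ^ m - 1 : Polynomial L).eval s = 0 with hR
  have hdvd : (Polynomial.X ^ m - 1 : Polynomial L)
      ∣ Polynomial.X ^ Fintype.card L - Polynomial.X := by
    rw [hL, ← hme]
    have h1 : (Polynomial.X ^ m - 1 : Polynomial L) ∣ (Polynomial.X ^ m) ^ e - 1 ^ e :=
      sub_dvd_pow_sub_pow _ _ e
    rw [one_pow, ← pow_mul] at h1
    have h2 : (Polynomial.X ^ (m * e + 1) - Polynomial.X : Polynomial L)
        = (Polynomial.X ^ (m * e) - 1) * Polynomial.X := by ring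
    rw [h2]
    exact h1.mul_right _
  have hRcard : R.card = m := by
    have h1 := card_roots_of_dvd hdvd
    have h2 : (Polynomial.X ^ m - 1 : Polynomial L).natDegree = m := by
      have := Polynomial.natDegree_X_pow_sub_C (n := m) (r := (1 : L))
      rwa [Polynomial.C_1] at this
    rw [h2] at h1
    rw [hR]
    convert h1
  have hmemR : ∀ y : L, y ∈ R ↔ y ^ m = 1 := by
    intro y
    rw [hR, Finset.mem_filter]
    simp [sub_eq_zero]
  have h0R : (0 : L) ∉ R := by
    rw [hmemR, zero_pow hm0]
    exact zero_ne_one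
  -- a point outside
  obtain ⟨x0, hx0⟩ : ∃ x0 : L, x0 ∉ insert 0 R := by
    by_contra hcon
    push Not at hcon
    have h1 : insert 0 R = Finset.univ := Finset.eq_univ_of_forall hcon
    have h2 := congrArg Finset.card h1
    rw [Finset.card_insert_of_notMem h0R, Finset.card_univ, hL, hRcard] at h2
    have h3 : e = 1 := by
      have : m * e = m * 1 := by omega
      exact Nat.eq_of_mul_eq_mul_left (Nat.pos_of_ne_zero hm0) this
    rw [h3] at he
    omega
  rw [Finset.mem_insert, not_or] at hx0
  have hcard : (insert none ((insert 0 R).image some) : Finset (Option L)).card = m + 2 := by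
    rw [Finset.card_insert_of_notMem (by simp),
      Finset.card_image_of_injective _ (Option.some_injective L),
      Finset.card_insert_of_notMem h0R, hRcard]
  rw [← hcard]
  have key : ∀ y : L, y ^ m = 1 → ∃ c : F, algebraMap F L c = y ^ d := by
    intro y hy
    apply exists_of_pow_card_eq
    have : Fintype.card F = (q - 1) + 1 := by omega
    rw [this, pow_succ, ← pow_mul, ← hm, hy, one_mul]
  refine rs_upper hd1 b hn x z hP T hT H hH i hi (fun X _ => X ^ d) (fun _ Z => Z ^ d)
    ?_ ?_ ?_ ?_ ?_ ?_ _ x0 ?_ ?_ ?_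
  · intro α β γ δ
    have h2 : Hom (0 + d) (fun x z : L => (α * x + β * z) ^ d * 1) :=
      (Hom.const 1).pow_mul α β d
    rw [zero_add] at h2
    obtain ⟨A, hA⟩ := h2
    refine ⟨A, fun x z => ?_⟩
    rw [← hA]; ring
  · intro α β γ δ
    have h2 : Hom (0 + d) (fun x z : L => (γ * x + δ * z) ^ d * 1) :=
      (Hom.const 1).pow_mul γ δ d
    rw [zero_add] at h2
    obtain ⟨A, hA⟩ := h2
    refine ⟨A, fun x z => ?_⟩
    rw [← hA]; ring
  · intro y w
    rw [mul_pow]
  · intro y w
    ring
  · intro w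
    ring
  · intro w
    rw [zero_pow (by omega : d ≠ 0), zero_mul]
  · intro v0 v1 hv
    have hv0 : v0 = 0 := by
      by_contra hne
      have hne' : algebraMap F L v0 ≠ 0 := fun h => hne ((map_eq_zero _).mp h)
      apply hx0.2
      rw [hmemR]
      have h1 : x0 ^ d = algebraMap F L (-v1 / v0) := by
        rw [map_div₀, map_neg, eq_div_iff hne']
        simp only [one_pow] at hv
        linear_combination hv
      have h2 : (x0 ^ d) ^ q = x0 ^ d := by
        rw [h1, ← map_pow, FiniteField.pow_card]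
      have h3 : x0 ^ d * x0 ^ m = x0 ^ d * 1 := by
        rw [mul_one, ← pow_add]
        have : d + m = d * q := by
          rw [hm]
          obtain ⟨q', hq'⟩ : ∃ q', q = q' + 1 := ⟨q - 1, by omega⟩
          rw [hq', Nat.add_sub_cancel]; ring
        rw [this, pow_mul]
        exact h2
      exact mul_left_cancel₀ (pow_ne_zero _ hx0.1) h3
    refine ⟨hv0, ?_⟩
    rw [hv0, map_zero, zero_mul, zero_add, one_pow, mul_one] at hv
    exact (map_eq_zero _).mp hv
  · intro y hy
    rw [Finset.mem_insert, Finset.mem_image] at hy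
    rcases hy with hy | ⟨y', hy, hy'⟩
    · exact absurd hy (by simp)
    rw [Option.some.inj hy', Finset.mem_insert, hmemR] at hy
    rcases hy with hy | hy
    · refine ⟨1, 0, fun h => one_ne_zero h.1, ?_⟩
      rw [hy, zero_pow (by omega : d ≠ 0)]
      simp
    · obtain ⟨c, hc⟩ := key y hy
      refine ⟨1, -c, fun h => one_ne_zero h.1, ?_⟩
      rw [map_one, map_neg, hc]
      ring
  · intro _
    refine ⟨0, 1, fun h => one_ne_zero h.2, ?_⟩
    rw [zero_pow (by omega : d ≠ 0)]
    simp

end Pool.Agent.Lib_MP_e76747_rs
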